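import Mathlib

-- part Pool.Agent.Lib.MP_299528_co.Bd.Ent
section

/-! Shannon entropy of functions on a finite uniform probability space. -/

set_option autoImplicit false

namespace Pool.Agent.Lib.MP_299528_co.Bd

open Finset

variable {Ω : Type*} [Fintype Ω]

open Classical in
/-- Size of a fibre. -/
noncomputable def cnt {A : Type*} (f : Ω → A) (a : A) : ℕ := (univ.filter (fun ω => f ω = a)).card

/-- Entropy of `f` under the uniform measure. -/
noncomputable def H {A : Type*} (f : Ω → A) : ℝ :=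
  (∑ ω, -Real.log ((cnt f (f ω) : ℝ) / Fintype.card Ω)) / Fintype.card Ω

lemma cnt_pos {A : Type*} (f : Ω → A) (ω : Ω) : 0 < cnt f (f ω) := by
  classical
  unfold cnt
  exact card_pos.mpr ⟨ω, by simp⟩

lemma cnt_mono {A B : Type*} (f : Ω → A) (g : Ω → B)
    (h : ∀ ω ω', g ω = g ω' → f ω = f ω') (ω : Ω) : cnt g (g ω) ≤ cnt f (f ω) := by
  classical
  unfold cnt
  apply card_le_card
  intro x hx
  simp only [mem_filter, mem_univ, true_and] at hx ⊢
  exact h _ _ hx

/-- If `g` determines `f` then `H f ≤ H g`. -/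
lemma H_mono {A B : Type*} (f : Ω → A) (g : Ω → B)
    (h : ∀ ω ω', g ω = g ω' → f ω = f ω') : H f ≤ H g := by
  unfold H
  apply div_le_div_of_nonneg_right _ (Nat.cast_nonneg _)
  apply sum_le_sum
  intro ω _
  have hc : (0 : ℝ) < Fintype.card Ω := by
    exact_mod_cast Fintype.card_pos_iff.mpr ⟨ω⟩
  apply neg_le_neg
  apply Real.log_le_log
  · exact div_pos (by exact_mod_cast cnt_pos g ω) hc
  · exact div_le_div_of_nonneg_right (by exact_mod_cast cnt_mono f g h ω) hc.le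

lemma H_const {A : Type*} (f : Ω → A) (h : ∀ ω ω', f ω = f ω') : H f = 0 := by
  classical
  unfold H
  rw [sum_eq_zero, zero_div]
  intro ω _
  have hc : (0 : ℝ) < Fintype.card Ω := by
    exact_mod_cast Fintype.card_pos_iff.mpr ⟨ω⟩
  have : cnt f (f ω) = Fintype.card Ω := by
    unfold cnt
    rw [filter_true_of_mem (fun x _ => h x ω)]
    rfl
  rw [this, div_self hc.ne', Real.log_one, neg_zero]

lemma ent_cnt {A : Type*} (f : Ω → A) (a : A) [∀ ω, Decidable (f ω = a)] :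
    (cnt f a : ℝ) = ∑ ω, if f ω = a then 1 else 0 := by
  rw [cnt, card_eq_sum_ones, sum_filter]
  push_cast
  exact sum_congr rfl fun ω _ => by congr

lemma ent_log_sum (r : Ω → ℝ) (hr : ∀ ω, 0 < r ω) (hs : ∑ ω, r ω ≤ Fintype.card Ω) :
    ∑ ω, Real.log (r ω) ≤ 0 := by
  have h1 : ∑ ω, Real.log (r ω) ≤ ∑ ω, (r ω - 1) :=
    sum_le_sum fun ω _ => Real.log_le_sub_one_of_pos (hr ω)
  rw [sum_sub_distrib, sum_const, card_univ, nsmul_eq_mul, mul_one] at h1
  linarith

lemma ent_fib {A : Type*} (f : Ω → A) (a : A) [∀ ω, Decidable (f ω = a)] :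
    ∑ ω, (if f ω = a then (cnt f a : ℝ)⁻¹ else 0) ≤ 1 := by
  have h1 : ∑ ω, (if f ω = a then (cnt f a : ℝ)⁻¹ else 0) = cnt f a * (cnt f a : ℝ)⁻¹ := by
    conv_rhs => rw [ent_cnt f a, sum_mul, ← ent_cnt f a]
    exact sum_congr rfl fun ω _ => by split_ifs <;> simp
  rw [h1]
  exact mul_inv_le_one

/-- An injective variable has full entropy. -/
lemma H_inj [Nonempty Ω] {A : Type*} (f : Ω → A) (h : Function.Injective f) :
    H f = Real.log (Fintype.card Ω) := by
  classical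
  have hc : (0 : ℝ) < Fintype.card Ω := by exact_mod_cast Fintype.card_pos
  have h1 : ∀ ω, (cnt f (f ω) : ℝ) = 1 := fun ω => by
    rw [ent_cnt]
    simp [h.eq_iff]
  unfold H
  simp only [h1, one_div, Real.log_inv, neg_neg, sum_const, card_univ, nsmul_eq_mul]
  field_simp

/-- A variable with values in a finite set `s` has entropy at most `log #s`. -/
lemma H_le_log {A : Type*} (f : Ω → A) (s : Finset A) (h : ∀ ω, f ω ∈ s) :
    H f ≤ Real.log s.card := by
  classical
  rcases isEmpty_or_nonempty Ω with hΩ | hΩ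
  · unfold H
    rw [Fintype.card_eq_zero, Nat.cast_zero, div_zero]
    exact Real.log_natCast_nonneg _
  have hc : (0 : ℝ) < Fintype.card Ω := by exact_mod_cast Fintype.card_pos
  have hs : (0 : ℝ) < s.card := by
    exact_mod_cast card_pos.2 ⟨f (Classical.arbitrary Ω), h _⟩
  have hp : ∀ ω, (0 : ℝ) < cnt f (f ω) := fun ω => by exact_mod_cast cnt_pos f ω
  have h1 : ∑ ω, (cnt f (f ω) : ℝ)⁻¹ ≤ s.card := by
    have h2 : ∀ ω, (cnt f (f ω) : ℝ)⁻¹ = ∑ a ∈ s, if f ω = a then (cnt f a : ℝ)⁻¹ else 0 :=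
      fun ω => by rw [sum_ite_eq, if_pos (h ω)]
    rw [sum_congr rfl fun ω _ => h2 ω, sum_comm]
    refine (sum_le_sum fun a _ => ent_fib f a).trans ?_
    simp
  have h3 := ent_log_sum (fun ω => Fintype.card Ω / s.card * (cnt f (f ω) : ℝ)⁻¹)
    (fun ω => by have := hp ω; positivity) (by
      rw [← mul_sum]
      refine (mul_le_mul_of_nonneg_left h1 (by positivity)).trans (le_of_eq ?_)
      field_simp)
  unfold H
  rw [div_le_iff₀ hc]
  have h4 : ∀ ω, Real.log (Fintype.card Ω / s.card * (cnt f (f ω) : ℝ)⁻¹) =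
      -Real.log ((cnt f (f ω) : ℝ) / Fintype.card Ω) - Real.log s.card := fun ω => by
    rw [Real.log_mul (by positivity) (inv_ne_zero (hp ω).ne'), Real.log_div hc.ne' hs.ne',
      Real.log_inv, Real.log_div (hp ω).ne' hc.ne']
    ring
  rw [sum_congr rfl fun ω _ => h4 ω, sum_sub_distrib, sum_const, card_univ, nsmul_eq_mul] at h3
  linarith

lemma ent_ratio {A B C : Type*} (f : Ω → A) (g : Ω → B) (h : Ω → C) :
    ∑ ω, (cnt (fun ω => (f ω, h ω)) (f ω, h ω) : ℝ) * cnt (fun ω => (g ω, h ω)) (g ω, h ω) *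
      ((cnt (fun ω => (f ω, g ω, h ω)) (f ω, g ω, h ω) : ℝ)⁻¹ * (cnt h (h ω) : ℝ)⁻¹) ≤
      Fintype.card Ω := by
  classical
  have h1 : ∀ ω, (cnt (fun ω => (f ω, h ω)) (f ω, h ω) : ℝ) *
      cnt (fun ω => (g ω, h ω)) (g ω, h ω) *
      ((cnt (fun ω => (f ω, g ω, h ω)) (f ω, g ω, h ω) : ℝ)⁻¹ * (cnt h (h ω) : ℝ)⁻¹) =
      ∑ o1, ∑ o2, if (f o1, h o1) = (f ω, h ω) ∧ (g o2, h o2) = (g ω, h ω) then
        (cnt (fun ω => (f ω, g ω, h ω)) (f ω, g ω, h ω) : ℝ)⁻¹ * (cnt h (h ω) : ℝ)⁻¹ else 0 := by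
    intro ω
    rw [ent_cnt (fun ω => (f ω, h ω)), ent_cnt (fun ω => (g ω, h ω)), sum_mul_sum, sum_mul]
    refine sum_congr rfl fun o1 _ => ?_
    rw [sum_mul]
    refine sum_congr rfl fun o2 _ => ?_
    by_cases a1 : (f o1, h o1) = (f ω, h ω) <;> by_cases a2 : (g o2, h o2) = (g ω, h ω) <;>
      simp only [a1, a2, if_true, if_false, and_self, and_true, and_false, mul_one, one_mul,
        mul_zero, zero_mul]
  have h2 : ∀ o1 o2, (∑ ω, if (f o1, h o1) = (f ω, h ω) ∧ (g o2, h o2) = (g ω, h ω) then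
      (cnt (fun ω => (f ω, g ω, h ω)) (f ω, g ω, h ω) : ℝ)⁻¹ * (cnt h (h ω) : ℝ)⁻¹ else 0) ≤
      if h o2 = h o1 then (cnt h (h o1) : ℝ)⁻¹ else 0 := by
    intro o1 o2
    split_ifs with e
    · have h3 := mul_le_mul_of_nonneg_right (ent_fib (fun ω => (f ω, g ω, h ω)) (f o1, g o2, h o1))
        (show (0 : ℝ) ≤ (cnt h (h o1) : ℝ)⁻¹ by positivity)
      rw [one_mul, sum_mul] at h3
      refine le_trans (sum_le_sum fun ω _ => ?_) h3
      by_cases a : (f o1, h o1) = (f ω, h ω) ∧ (g o2, h o2) = (g ω, h ω)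
      · obtain ⟨a1, a2⟩ := Prod.mk.inj a.1
        obtain ⟨a3, -⟩ := Prod.mk.inj a.2
        rw [if_pos a, a1, a2, a3, if_pos rfl]
      · rw [if_neg a]
        positivity
    · refine le_of_eq (sum_eq_zero fun ω _ => if_neg fun a => e ?_)
      exact (Prod.mk.inj a.2).2.trans (Prod.mk.inj a.1).2.symm
  rw [sum_congr rfl fun ω _ => h1 ω, sum_comm]
  refine le_trans (sum_le_sum fun o1 _ => ?_) (le_of_eq (by simp : ∑ _o : Ω, (1 : ℝ) = _))
  rw [sum_comm]
  exact (sum_le_sum fun o2 _ => h2 o1 o2).trans (ent_fib h (h o1))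

/-- Submodularity. -/
lemma H_submod {A B C : Type*} (f : Ω → A) (g : Ω → B) (h : Ω → C) :
    H (fun ω => (f ω, g ω, h ω)) + H h ≤ H (fun ω => (f ω, h ω)) + H (fun ω => (g ω, h ω)) := by
  rcases isEmpty_or_nonempty Ω with hΩ | hΩ
  · simp [H]
  have hc : (0 : ℝ) < Fintype.card Ω := by exact_mod_cast Fintype.card_pos
  have p1 : ∀ ω, (0 : ℝ) < cnt (fun ω => (f ω, h ω)) (f ω, h ω) := fun ω => by
    exact_mod_cast cnt_pos (fun ω => (f ω, h ω)) ω
  have p2 : ∀ ω, (0 : ℝ) < cnt (fun ω => (g ω, h ω)) (g ω, h ω) := fun ω => by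
    exact_mod_cast cnt_pos (fun ω => (g ω, h ω)) ω
  have p3 : ∀ ω, (0 : ℝ) < cnt (fun ω => (f ω, g ω, h ω)) (f ω, g ω, h ω) := fun ω => by
    exact_mod_cast cnt_pos (fun ω => (f ω, g ω, h ω)) ω
  have p4 : ∀ ω, (0 : ℝ) < cnt h (h ω) := fun ω => by exact_mod_cast cnt_pos h ω
  have h3 := ent_log_sum _ (fun ω => mul_pos (mul_pos (p1 ω) (p2 ω))
    (mul_pos (inv_pos.2 (p3 ω)) (inv_pos.2 (p4 ω)))) (ent_ratio f g h)
  unfold H
  rw [← add_div, ← add_div]
  refine div_le_div_of_nonneg_right ?_ hc.le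
  rw [← sum_add_distrib, ← sum_add_distrib, ← sub_nonpos, ← sum_sub_distrib]
  refine le_of_eq_of_le (sum_congr rfl fun ω _ => ?_) h3
  rw [Real.log_mul (mul_pos (p1 ω) (p2 ω)).ne' (mul_pos (inv_pos.2 (p3 ω)) (inv_pos.2 (p4 ω))).ne',
    Real.log_mul (p1 ω).ne' (p2 ω).ne', Real.log_mul (inv_pos.2 (p3 ω)).ne' (inv_pos.2 (p4 ω)).ne',
    Real.log_inv, Real.log_inv, Real.log_div (p1 ω).ne' hc.ne', Real.log_div (p2 ω).ne' hc.ne',
    Real.log_div (p3 ω).ne' hc.ne', Real.log_div (p4 ω).ne' hc.ne']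
  ring

/-- Subadditivity. -/
lemma H_pair {A B : Type*} (f : Ω → A) (g : Ω → B) :
    H (fun ω => (f ω, g ω)) ≤ H f + H g := by
  have h1 := H_submod f g (fun _ => ())
  have h2 : H (fun _ : Ω => ()) = 0 := H_const _ fun _ _ => rfl
  have h3 : H (fun ω => (f ω, g ω)) ≤ H (fun ω => (f ω, g ω, ())) :=
    H_mono _ _ fun ω ω' e => by
      obtain ⟨a1, a2⟩ := Prod.mk.inj e
      rw [a1, (Prod.mk.inj a2).1]
  have h4 : H (fun ω => (f ω, ())) ≤ H f := H_mono _ _ fun ω ω' e => by rw [e]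
  have h5 : H (fun ω => (g ω, ())) ≤ H g := H_mono _ _ fun ω ω' e => by rw [e]
  linarith

/-- Loomis-Whitney inequality when all projections lie in one set. -/
theorem loomis {α : Type*} (l : ℕ) (hl : 1 ≤ l) (W : Finset (Fin (l + 1) → α)) (A : Finset (Fin l → α))
    (h : ∀ v ∈ W, ∀ i : Fin (l + 1), (fun x => v (i.succAbove x)) ∈ A) :
    W.card ^ l ≤ A.card ^ (l + 1) := by
  rcases W.eq_empty_or_nonempty with rfl | hW
  · rw [card_empty, zero_pow (by omega)]
    exact Nat.zero_le _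
  obtain ⟨v0, hv0⟩ := hW
  have : Nonempty W := ⟨⟨v0, hv0⟩⟩
  let P : ℕ → W → Fin (l + 1) → Option α := fun k ω x => if x.val < k then some (ω.1 x) else none
  have hfull : H (fun ω : W => ω) = Real.log W.card := by
    rw [H_inj _ fun _ _ e => e, Fintype.card_coe]
  have step : ∀ i : Fin (l + 1),
      Real.log W.card + H (P i) ≤ H (P (i + 1)) + Real.log A.card := by
    intro i
    have h1 := H_submod (P (i + 1)) (fun (ω : W) x => ω.1 (i.succAbove x)) (P i)
    have h2 : H (fun ω : W => ω) ≤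
        H (fun ω : W => (P (i + 1) ω, (fun x => ω.1 (i.succAbove x)), P i ω)) := by
      refine H_mono _ _ fun ω ω' e => Subtype.ext (funext fun x => ?_)
      obtain ⟨a1, a2⟩ := Prod.mk.inj e
      by_cases hx : x = i
      · have a3 := congrFun a1 x
        simpa [P, hx] using a3
      · obtain ⟨y, rfl⟩ := Fin.exists_succAbove_eq hx
        exact congrFun (Prod.mk.inj a2).1 y
    have h3 : H (fun ω : W => (P (i + 1) ω, P i ω)) ≤ H (P (i + 1)) := by
      refine H_mono _ _ fun ω ω' e => Prod.ext e (funext fun x => ?_)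
      have a3 := congrFun e x
      by_cases hx : x.val < i.val
      · have hx' : x.val < i.val + 1 := by omega
        simpa only [P, if_pos hx, if_pos hx'] using a3
      · simp only [P, if_neg hx]
    have h4 : H (fun ω : W => ((fun x => ω.1 (i.succAbove x)), P i ω)) ≤
        H (fun (ω : W) x => ω.1 (i.succAbove x)) := by
      refine H_mono _ _ fun ω ω' e => Prod.ext e (funext fun x => ?_)
      by_cases hx : x.val < i.val
      · obtain ⟨y, rfl⟩ := Fin.exists_succAbove_eq (show x ≠ i from fun e => by omega)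
        simp only [P, if_pos hx]
        exact congrArg some (congrFun e y)
      · simp only [P, if_neg hx]
    have h5 := H_le_log (fun (ω : W) x => ω.1 (i.succAbove x)) A fun ω => h ω.1 ω.2 i
    linarith
  have ind : ∀ k, k ≤ l + 1 → k * Real.log W.card ≤ H (P k) + k * Real.log A.card := by
    intro k
    induction k with
    | zero =>
      intro _
      rw [H_const (P 0) fun ω ω' => funext fun x => by simp [P]]
      simp
    | succ k ih =>
      intro hk
      have h1 := ih (by omega)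
      have h2 : Real.log W.card + H (P k) ≤ H (P (k + 1)) + Real.log A.card := step ⟨k, hk⟩
      push_cast
      linarith
  have h1 := ind (l + 1) le_rfl
  have h2 : H (P (l + 1)) ≤ H (fun ω : W => ω) := H_mono _ _ fun ω ω' e => by rw [e]
  have hWp : (0 : ℝ) < W.card := by exact_mod_cast card_pos.2 ⟨v0, hv0⟩
  have hAp : (0 : ℝ) < A.card := by exact_mod_cast card_pos.2 ⟨_, h v0 hv0 0⟩
  have h3 : Real.log ((W.card : ℝ) ^ l) ≤ Real.log ((A.card : ℝ) ^ (l + 1)) := by
    rw [Real.log_pow, Real.log_pow]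
    push_cast at h1 ⊢
    linarith
  exact_mod_cast (Real.log_le_log_iff (by positivity) (by positivity)).1 h3

end Pool.Agent.Lib.MP_299528_co.Bd
end

-- part Pool.Agent.Lib.MP_299528_co.Bd.Four
section

/-! A sum of `j ≥ 2` independent copies is not uniform on a window. -/

set_option autoImplicit false

namespace Pool.Agent.Lib.MP_299528_co.Bd

open Finset

theorem four_one {R : Type} [CommSemiring R] {n : ℕ} (G : Finset ℕ) (a b : ℕ → R)
    (h : Fin (n + 1)) : ∑ v ∈ Fintype.piFinset (fun _ : Fin (n + 1) => G), a (v h) * ∏ i, b (v i) =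
      (∑ g ∈ G, a g * b g) * (∑ g ∈ G, b g) ^ n := by
  have h1 := sum_prod_piFinset G (fun (i : Fin (n + 1)) g => if i = h then a g * b g else b g)
  rw [Fin.prod_univ_succAbove _ h] at h1
  simp only [if_true, Fin.succAbove_ne, if_false, prod_const, card_univ, Fintype.card_fin] at h1
  rw [← h1]
  refine sum_congr rfl fun v _ => ?_
  rw [Fin.prod_univ_succAbove _ h, Fin.prod_univ_succAbove _ h]
  simp only [if_true, Fin.succAbove_ne, if_false, mul_assoc]

theorem four_all {R : Type} [CommSemiring R] {n : ℕ} (G : Finset ℕ) (a b : ℕ → R) :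
    ∑ v ∈ Fintype.piFinset (fun _ : Fin (n + 1) => G), (∑ h, a (v h)) * ∏ i, b (v i) =
      ((n + 1 : ℕ) : R) * ((∑ g ∈ G, a g * b g) * (∑ g ∈ G, b g) ^ n) := by
  simp only [sum_mul]
  rw [sum_comm]
  simp only [four_one, sum_const, card_univ, Fintype.card_fin, nsmul_eq_mul, sum_mul]

theorem four_geom (ω : ℂ) (n : ℕ) : (ω - 1) * ∑ i ∈ range n, (i : ℂ) * ω ^ i =
    n * ω ^ n - ω * ∑ i ∈ range n, ω ^ i := by
  induction n with
  | zero => simp
  | succ n ih =>
    rw [sum_range_succ, sum_range_succ, mul_add, ih]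
    push_cast
    ring

theorem four_root {m : ℕ} (hm : 2 ≤ m) (c : ℕ) : ∃ ω : ℂ, ‖ω‖ = 1 ∧
    ∑ x ∈ Ico c (c + m), ω ^ x = 0 ∧
    (m : ℝ) ^ 2 / 8 ≤ ‖∑ x ∈ Ico c (c + m), (((x : ℝ) - c : ℝ) : ℂ) * ω ^ x‖ := by
  have hm0 : m ≠ 0 := by omega
  have hp := Complex.isPrimitiveRoot_exp m hm0
  obtain ⟨ω, hω⟩ : ∃ ω : ℂ, ω = Complex.exp (2 * Real.pi * Complex.I / m) := ⟨_, rfl⟩
  rw [← hω] at hp
  have hn : ‖ω‖ = 1 := hp.norm'_eq_one hm0
  have h0 : ∑ i ∈ range m, ω ^ i = 0 := hp.geom_sum_eq_zero (by omega)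
  have hmr : (0 : ℝ) < m := by positivity
  have h1 : ‖ω - 1‖ ≤ 8 / m := by
    have h2 : ω = Complex.exp (Complex.I * ((2 * Real.pi / m : ℝ) : ℂ)) := by
      rw [hω]
      congr 1
      push_cast
      ring
    rw [h2]
    refine Real.norm_exp_I_mul_ofReal_sub_one_le.trans ?_
    rw [Real.norm_eq_abs, abs_of_nonneg (by positivity)]
    exact div_le_div_of_nonneg_right (by linarith [Real.pi_le_four]) hmr.le
  refine ⟨ω, hn, ?_, ?_⟩
  · rw [sum_Ico_eq_sum_range, Nat.add_sub_cancel_left]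
    simp only [pow_add]
    rw [← mul_sum, h0, mul_zero]
  · rw [sum_Ico_eq_sum_range, Nat.add_sub_cancel_left]
    have h2 : ∑ i ∈ range m, (((((c + i : ℕ) : ℝ) - c : ℝ) : ℂ)) * ω ^ (c + i) =
        ω ^ c * ∑ i ∈ range m, (i : ℂ) * ω ^ i := by
      rw [mul_sum]
      refine sum_congr rfl fun i _ => ?_
      push_cast
      ring
    have h3 := four_geom ω m
    rw [h0, hp.pow_eq_one, mul_zero, sub_zero, mul_one] at h3
    have h4 := congrArg norm h3
    rw [norm_mul, Complex.norm_natCast] at h4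
    rw [h2, norm_mul, norm_pow, hn, one_pow, one_mul]
    have h5 := mul_le_mul_of_nonneg_right h1 (norm_nonneg (∑ i ∈ range m, (i : ℂ) * ω ^ i))
    rw [h4, div_mul_eq_mul_div, le_div_iff₀ hmr] at h5
    linarith

theorem four_fib {R : Type} [CommSemiring R] {j N : ℕ} {T : Finset ℕ} {W : Finset (Fin j → ℕ)}
    (h1 : ∀ v ∈ W, ∑ h, v h ∈ T) (h2 : ∀ x ∈ T, (W.filter (fun v => ∑ h, v h = x)).card = N)
    (φ : ℕ → R) : ∑ v ∈ W, φ (∑ h, v h) = N * ∑ x ∈ T, φ x := by
  rw [← sum_fiberwise_of_maps_to' h1 φ, mul_sum]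
  refine sum_congr rfl fun x hx => ?_
  rw [sum_const, h2 x hx, nsmul_eq_mul]

theorem four_norm {ι : Type} (s : Finset ι) (f : ι → ℂ) {C : ℝ} (h : ∀ i ∈ s, ‖f i‖ ≤ C) :
    ‖∑ i ∈ s, f i‖ ≤ s.card * C := by
  refine (norm_sum_le _ _).trans ?_
  simpa using sum_le_card_nsmul s (fun i => ‖f i‖) C h

theorem four_small {n : ℕ} {G U : Finset ℕ} {W : Finset (Fin (n + 1) → ℕ)} {a : ℝ} (ha : 0 ≤ a)
    (hU : U ⊆ G) (hW : ∀ v ∈ W, ¬ ∀ h, v h ∈ U)
    (hc : (((Fintype.piFinset (fun _ : Fin (n + 1) => G)) \ W).card : ℝ) ≤ a ^ (n + 1)) :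
    (U.card : ℝ) ≤ a := by
  refine le_of_pow_le_pow_left₀ (Nat.succ_ne_zero n) ha (le_trans ?_ hc)
  have h1 : Fintype.piFinset (fun _ : Fin (n + 1) => U) ⊆
      Fintype.piFinset (fun _ : Fin (n + 1) => G) \ W := fun v hv => by
    rw [Fintype.mem_piFinset] at hv
    exact mem_sdiff.2 ⟨Fintype.mem_piFinset.2 fun h => hU (hv h), fun h => hW v h hv⟩
  have h2 := card_le_card h1
  rw [Fintype.card_piFinset_const] at h2
  exact_mod_cast h2

theorem fourier_gap (j : ℕ) (hj : 2 ≤ j) :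
    ∃ σ : ℝ, 0 < σ ∧ σ ≤ 1 ∧ ∀ (m c : ℕ) (G T : Finset ℕ) (W : Finset (Fin j → ℕ)),
      2 ≤ m → G.Nonempty → (∀ v ∈ W, (∀ h, v h ∈ G) ∧ ∑ h, v h ∈ T) →
      (∀ x ∈ T, c ≤ x ∧ x < c + m) →
      (∀ x ∈ T, (W.filter (fun v => ∑ h, v h = x)).card = j.factorial) →
      (j.factorial : ℝ) * m ≤ j.factorial * T.card + σ * (G.card : ℝ) ^ j →
      (W.card : ℝ) < (1 - σ) * (G.card : ℝ) ^ j := by
  obtain ⟨n, rfl⟩ : ∃ n, j = n + 1 := ⟨j - 1, by omega⟩
  obtain ⟨J, hJ⟩ : ∃ J : ℝ, J = ((n + 1 : ℕ) : ℝ) := ⟨_, rfl⟩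
  have hJ2 : 2 ≤ J := by rw [hJ]; exact_mod_cast hj
  obtain ⟨θ, hθ⟩ : ∃ θ : ℝ, θ = 1 / (100 * J) := ⟨_, rfl⟩
  have hθ0 : 0 < θ := by rw [hθ]; positivity
  have hθJ : θ * J = 1 / 100 := by rw [hθ]; field_simp
  have hθ1 : θ ≤ 1 / 200 := by nlinarith
  have hθn : θ ^ n ≤ θ := pow_le_of_le_one hθ0.le (by linarith) (by omega)
  have hθj : θ ^ (n + 1) ≤ θ := pow_le_of_le_one hθ0.le (by linarith) (by omega)
  obtain ⟨σ, hσ⟩ : ∃ σ : ℝ, σ = θ ^ (n + 1) / 2 := ⟨_, rfl⟩
  have hσ0 : 0 < σ := by rw [hσ]; positivity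
  have hσ1 : σ ≤ 1 / 400 := by linarith
  refine ⟨σ, hσ0, by linarith, fun m c G T W hm hG hW hT hf hs => ?_⟩
  by_contra hcon
  rw [not_lt] at hcon
  obtain ⟨K, hK⟩ : ∃ K : ℝ, K = G.card := ⟨_, rfl⟩
  obtain ⟨N, hN⟩ : ∃ N : ℝ, N = ((n + 1).factorial : ℕ) := ⟨_, rfl⟩
  rw [← hK] at hs hcon
  rw [← hN] at hs
  have hK0 : 0 < K := by rw [hK]; exact_mod_cast hG.card_pos
  have hN0 : 0 < N := by rw [hN]; exact_mod_cast Nat.factorial_pos _
  have hm0 : (0 : ℝ) < m := by positivity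
  have hKj : 0 < K ^ (n + 1) := by positivity
  obtain ⟨B, hB⟩ : ∃ B, B = Fintype.piFinset (fun _ : Fin (n + 1) => G) := ⟨_, rfl⟩
  have hWB : W ⊆ B := fun v hv => hB ▸ Fintype.mem_piFinset.2 (hW v hv).1
  have hBc : (B.card : ℝ) = K ^ (n + 1) := by
    rw [hB, Fintype.card_piFinset_const, hK, Nat.cast_pow]
  have hBW : ((B \ W).card : ℝ) ≤ σ * K ^ (n + 1) := by
    rw [card_sdiff_of_subset hWB, Nat.cast_sub (card_le_card hWB), hBc]
    linarith
  have hWT : (W.card : ℝ) = N * T.card := by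
    have := four_fib (fun v hv => (hW v hv).2) hf (fun _ => (1 : ℝ))
    simpa [hN] using this
  have hTI : T ⊆ Ico c (c + m) := fun x hx => mem_Ico.2 (hT x hx)
  have hIT : ((Ico c (c + m) \ T).card : ℝ) = m - T.card := by
    rw [card_sdiff_of_subset hTI, Nat.cast_sub (card_le_card hTI), Nat.card_Ico,
      Nat.add_sub_cancel_left]
  have hTm : (T.card : ℝ) ≤ m := by
    have : (0 : ℝ) ≤ (Ico c (c + m) \ T).card := Nat.cast_nonneg _
    linarith
  obtain ⟨ω, hω, hω0, hω1⟩ := four_root hm c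
  have hωn : ∀ x : ℕ, ‖ω ^ x‖ = 1 := fun x => by rw [norm_pow, hω, one_pow]
  have hNc : ‖(((n + 1).factorial : ℕ) : ℂ)‖ = N := by rw [Complex.norm_natCast, hN]
  have hP : ‖∑ g ∈ G, ω ^ g‖ ≤ θ * K := by
    refine le_of_pow_le_pow_left₀ (Nat.succ_ne_zero n) (by positivity) ?_
    have h1 : (∑ g ∈ G, ω ^ g) ^ (n + 1) = ∑ v ∈ B, ω ^ ∑ h, v h := by
      have := sum_prod_piFinset G (fun (_ : Fin (n + 1)) g => ω ^ g)
      simp only [prod_const, card_univ, Fintype.card_fin, prod_pow_eq_pow_sum] at this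
      rw [hB, this]
    have h2 := four_fib (fun v hv => (hW v hv).2) hf (fun x => ω ^ x)
    have h3 : ∑ x ∈ T, ω ^ x = -∑ x ∈ Ico c (c + m) \ T, ω ^ x := by
      rw [← sum_sdiff hTI] at hω0
      linear_combination hω0
    have h4 := four_norm (Ico c (c + m) \ T) (fun x => ω ^ x) fun x _ => (hωn x).le
    have h5 := four_norm (B \ W) (fun v => ω ^ ∑ h, v h) fun v _ => (hωn _).le
    rw [← norm_pow, h1, ← sum_sdiff hWB, h2, h3]
    refine (norm_add_le _ _).trans ?_
    rw [norm_mul, norm_neg, hNc, mul_pow]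
    rw [hIT] at h4
    have h6 := mul_le_mul_of_nonneg_left h4 hN0.le
    have h7 : θ ^ (n + 1) * K ^ (n + 1) = 2 * (σ * K ^ (n + 1)) := by rw [hσ]; ring
    simp only [Nat.succ_eq_add_one]
    linarith
  have hsm : ((B \ W).card : ℝ) ≤ (θ * K) ^ (n + 1) := by
    have h7 : θ ^ (n + 1) * K ^ (n + 1) = 2 * (σ * K ^ (n + 1)) := by rw [hσ]; ring
    have h8 : 0 ≤ σ * K ^ (n + 1) := by positivity
    rw [mul_pow]
    linarith
  have hHi : ((G.filter fun g => c + m ≤ (n + 1) * g).card : ℝ) ≤ θ * K := by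
    refine four_small (W := W) (by positivity) (filter_subset _ _) (fun v hv h => ?_) (hB ▸ hsm)
    have h1 : ∑ _h : Fin (n + 1), (c + m) ≤ ∑ h, (n + 1) * v h :=
      sum_le_sum fun i _ => (mem_filter.1 (h i)).2
    rw [← mul_sum, sum_const, card_univ, Fintype.card_fin, smul_eq_mul] at h1
    have h2 := Nat.le_of_mul_le_mul_left h1 (Nat.succ_pos n)
    have h3 := (hT _ (hW v hv).2).2
    omega
  have hLo : ((G.filter fun g => (n + 1) * g < c).card : ℝ) ≤ θ * K := by
    refine four_small (W := W) (by positivity) (filter_subset _ _) (fun v hv h => ?_) (hB ▸ hsm)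
    have h1 : ∑ h, (n + 1) * v h < ∑ _h : Fin (n + 1), c :=
      sum_lt_sum_of_nonempty univ_nonempty fun i _ => (mem_filter.1 (h i)).2
    rw [← mul_sum, sum_const, card_univ, Fintype.card_fin, smul_eq_mul] at h1
    have h2 := Nat.lt_of_mul_lt_mul_left h1
    have h3 := (hT _ (hW v hv).2).1
    omega
  obtain ⟨f, hfd⟩ : ∃ f : ℕ → ℝ, f = fun g : ℕ =>
      if c ≤ (n + 1) * g ∧ (n + 1) * g < c + m then (g : ℝ) - c / J else 0 := ⟨_, rfl⟩
  obtain ⟨u, hud⟩ : ∃ u : ℕ → ℝ, u = fun g : ℕ =>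
      if c ≤ (n + 1) * g ∧ (n + 1) * g < c + m then 0 else 1 := ⟨_, rfl⟩
  have hJ0 : 0 < J := by linarith
  have hf0 : ∀ g, 0 ≤ f g ∧ f g ≤ m / J := fun g => by
    rw [hfd]
    dsimp only
    split_ifs with h
    · have h1 : (c : ℝ) ≤ J * g := by rw [hJ]; exact_mod_cast h.1
      have h2 : J * g ≤ (c : ℝ) + m := by rw [hJ]; exact_mod_cast h.2.le
      refine ⟨sub_nonneg.2 ((div_le_iff₀' hJ0).2 h1), ?_⟩
      rw [sub_le_iff_le_add, ← add_div, le_div_iff₀' hJ0]
      linarith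
    · exact ⟨le_rfl, by positivity⟩
  have hu0 : ∀ g, 0 ≤ u g := fun g => by
    rw [hud]
    dsimp only
    split_ifs <;> norm_num
  have hfs : ∀ v : Fin (n + 1) → ℕ, 0 ≤ ∑ h, f (v h) ∧ ∑ h, f (v h) ≤ m := fun v => by
    refine ⟨sum_nonneg fun h _ => (hf0 _).1, (sum_le_sum fun h _ => (hf0 (v h)).2).trans ?_⟩
    rw [sum_const, card_univ, Fintype.card_fin, nsmul_eq_mul, ← hJ, mul_div_cancel₀ _ hJ0.ne']
  have huG : ∑ g ∈ G, u g ≤ 2 * (θ * K) := by
    have h1 : ∑ g ∈ G, u g ≤ ∑ g ∈ G, ((if c + m ≤ (n + 1) * g then (1 : ℝ) else 0) +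
        if (n + 1) * g < c then (1 : ℝ) else 0) := by
      refine sum_le_sum fun g _ => ?_
      rw [hud]
      dsimp only
      split_ifs <;> first | omega | norm_num
    rw [sum_add_distrib, sum_boole, sum_boole] at h1
    linarith
  have huB : ∑ v ∈ W, ∑ h, u (v h) ≤ K ^ (n + 1) / 50 := by
    have h1 := four_all (n := n) G u (fun _ => 1)
    simp only [prod_const_one, mul_one, sum_const, nsmul_eq_mul] at h1
    rw [← hB, ← hK, ← hJ] at h1
    have h2 : ∑ v ∈ W, ∑ h, u (v h) ≤ ∑ v ∈ B, ∑ h, u (v h) :=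
      sum_le_sum_of_subset_of_nonneg hWB fun v _ _ => sum_nonneg fun h _ => hu0 _
    have h3 : J * ((∑ g ∈ G, u g) * K ^ n) ≤ J * (2 * (θ * K) * K ^ n) := by gcongr
    have h4 : J * (2 * (θ * K) * K ^ n) = 2 * (θ * J) * K ^ (n + 1) := by ring
    rw [hθJ] at h4
    linarith
  have hpt : ∀ v ∈ W, |∑ h, f (v h) - (((∑ h, v h : ℕ) : ℝ) - c)| ≤ m * ∑ h, u (v h) := by
    intro v hv
    by_cases hg : ∀ h, c ≤ (n + 1) * v h ∧ (n + 1) * v h < c + m
    · have h1 : ∑ h, f (v h) = ((∑ h, v h : ℕ) : ℝ) - c := by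
        rw [hfd]
        simp only [hg, and_self, if_true]
        rw [sum_sub_distrib, sum_const, card_univ, Fintype.card_fin, nsmul_eq_mul, ← hJ,
          mul_div_cancel₀ _ hJ0.ne', Nat.cast_sum]
      rw [h1, sub_self, abs_zero]
      exact mul_nonneg hm0.le (sum_nonneg fun h _ => hu0 _)
    · obtain ⟨i, hi⟩ := not_forall.1 hg
      have h1 : u (v i) = 1 := by rw [hud]; simp only [hi, if_false]
      have h2 : u (v i) ≤ ∑ h, u (v h) :=
        single_le_sum (f := fun h => u (v h)) (fun h _ => hu0 _) (mem_univ i)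
      have h3 := hT _ (hW v hv).2
      have h4 : (c : ℝ) ≤ ((∑ h, v h : ℕ) : ℝ) := by exact_mod_cast h3.1
      have h5 : ((∑ h, v h : ℕ) : ℝ) ≤ c + m := by exact_mod_cast h3.2.le
      have h6 := hfs v
      have h7 : (m : ℝ) * 1 ≤ m * ∑ h, u (v h) := mul_le_mul_of_nonneg_left (h1 ▸ h2) hm0.le
      rw [abs_le]
      constructor <;> linarith [h6.1, h6.2]
  have hF : ‖∑ v ∈ B, ((∑ h, f (v h) : ℝ) : ℂ) * ω ^ ∑ h, v h‖ ≤ m * K ^ (n + 1) * θ := by
    have h1 := four_all (n := n) G (fun g => (f g : ℂ)) (fun g => ω ^ g)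
    simp only [prod_pow_eq_pow_sum] at h1
    have h2 := four_norm G (fun g => (f g : ℂ) * ω ^ g) (C := m / J) fun g _ => by
      rw [norm_mul, hωn, mul_one, Complex.norm_real, Real.norm_of_nonneg (hf0 g).1]
      exact (hf0 g).2
    simp only [Complex.ofReal_sum]
    rw [hB, h1, norm_mul, norm_mul, norm_pow, Complex.norm_natCast, ← hJ]
    rw [← hK] at h2
    calc _ ≤ J * (K * (m / J) * (θ * K) ^ n) := by gcongr
      _ = m * K ^ (n + 1) * θ ^ n := by field_simp; ring
      _ ≤ _ := by gcongr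
  have hE : ‖∑ v ∈ W, (((∑ h, f (v h) : ℝ) : ℂ) * ω ^ ∑ h, v h -
      (((((∑ h, v h : ℕ) : ℝ) - c : ℝ) : ℂ)) * ω ^ ∑ h, v h)‖ ≤ m * (K ^ (n + 1) / 50) := by
    refine (norm_sum_le _ _).trans ?_
    refine le_trans (sum_le_sum fun v hv => ?_)
      ((mul_sum W (fun v => ∑ h, u (v h)) (m : ℝ)).symm.le.trans
        (mul_le_mul_of_nonneg_left huB hm0.le))
    rw [← sub_mul, norm_mul, hωn, mul_one, ← Complex.ofReal_sub, Complex.norm_real,
      Real.norm_eq_abs]
    exact hpt v hv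
  have hR := four_norm (B \ W) (fun v => ((∑ h, f (v h) : ℝ) : ℂ) * ω ^ ∑ h, v h) (C := m)
    fun v _ => by
      rw [norm_mul, hωn, mul_one, Complex.norm_real, Real.norm_of_nonneg (hfs v).1]
      exact (hfs v).2
  have hS := four_fib (fun v hv => (hW v hv).2) hf (fun x => (((x : ℝ) - c : ℝ) : ℂ) * ω ^ x)
  have hQ := four_norm (Ico c (c + m) \ T) (fun x => (((x : ℝ) - c : ℝ) : ℂ) * ω ^ x) (C := m)
    fun x hx => by
      have h1 := mem_Ico.1 (mem_sdiff.1 hx).1
      have h2 : (c : ℝ) ≤ x := by exact_mod_cast h1.1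
      have h3 : (x : ℝ) ≤ c + m := by exact_mod_cast h1.2.le
      rw [norm_mul, hωn, mul_one, Complex.norm_real, Real.norm_of_nonneg (by linarith)]
      linarith
  rw [← sum_sdiff hTI] at hω1
  rw [← sum_sdiff hWB] at hF
  rw [sum_sub_distrib, hS] at hE
  rw [hIT] at hQ
  generalize ∑ x ∈ T, (((x : ℝ) - c : ℝ) : ℂ) * ω ^ x = a1 at *
  generalize ∑ x ∈ Ico c (c + m) \ T, (((x : ℝ) - c : ℝ) : ℂ) * ω ^ x = a2 at *
  generalize ∑ v ∈ W, ((∑ h, f (v h) : ℝ) : ℂ) * ω ^ ∑ h, v h = a3 at *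
  generalize ∑ v ∈ B \ W, ((∑ h, f (v h) : ℝ) : ℂ) * ω ^ ∑ h, v h = a4 at *
  have g1 := norm_add_le a2 a1
  have g2 : N * ‖a1‖ ≤ ‖a4 + a3‖ + ‖a4‖ + ‖a3 - ((n + 1).factorial : ℕ) * a1‖ := by
    have h1 : (((n + 1).factorial : ℕ) : ℂ) * a1 =
        a4 + a3 - a4 - (a3 - ((n + 1).factorial : ℕ) * a1) := by ring
    rw [← hNc, ← norm_mul]
    calc _ = ‖a4 + a3 - a4 - (a3 - ((n + 1).factorial : ℕ) * a1)‖ := congrArg norm h1
      _ ≤ ‖a4 + a3 - a4‖ + _ := norm_sub_le _ _
      _ ≤ _ := by gcongr; exact norm_sub_le _ _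
  have g3 : N * ((m : ℝ) ^ 2 / 8 - (m - T.card) * m) ≤ N * ‖a1‖ :=
    mul_le_mul_of_nonneg_left (by linarith) hN0.le
  have g4 : (1 - σ) * K ^ (n + 1) ≤ N * m := by
    have := mul_le_mul_of_nonneg_left hTm hN0.le
    linarith
  have g5 := mul_le_mul_of_nonneg_right g4 hm0.le
  have g6 := mul_le_mul_of_nonneg_right hs hm0.le
  have g7 := mul_le_mul_of_nonneg_right hBW hm0.le
  have g8 : 0 < (m : ℝ) * K ^ (n + 1) := by positivity
  have g9 := mul_le_mul_of_nonneg_left hσ1 g8.le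
  have g10 := mul_le_mul_of_nonneg_left hθ1 g8.le
  nlinarith

end Pool.Agent.Lib.MP_299528_co.Bd
end

-- part Pool.Agent.Lib.MP_299528_co.Bd.Mat
section

/-! An approximate exchange property for sums, by entropy. -/

set_option autoImplicit false

namespace Pool.Agent.Lib.MP_299528_co.Bd

open Finset

section Abstract

variable {ι : Type} [DecidableEq ι] {g : Finset ι → ℝ} {T κ D : ℝ}

private lemma mat_down (hs : ∀ A B, g (A ∪ B) + g (A ∩ B) ≤ g A + g B + T) (W R : Finset ι)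
    {c : ℝ} (h : ∀ s ∈ R, g (W.erase s) ≤ g W - c) (M : Finset ι) (hM : M ⊆ R) :
    g (W \ M) ≤ g W - M.card * (c - T) := by
  induction M using Finset.induction_on with
  | empty => simp
  | insert s M hsM ih =>
    have h1 := ih ((subset_insert s M).trans hM)
    have h2 := h s (hM (mem_insert_self s M))
    have h3 := hs (W \ M) (W.erase s)
    have e1 : W \ M ∪ W.erase s = W := by
      ext x
      simp only [mem_union, mem_sdiff, mem_erase]
      constructor
      · tauto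
      · intro hx
        by_cases e : x = s
        · exact Or.inl ⟨hx, e ▸ hsM⟩
        · exact Or.inr ⟨e, hx⟩
    have e2 : (W \ M) ∩ W.erase s = W \ insert s M := by
      ext x
      simp only [mem_inter, mem_sdiff, mem_erase, mem_insert]
      tauto
    rw [e1, e2] at h3
    rw [card_insert_of_notMem hsM]
    push_cast
    linarith

private lemma mat_up (hs : ∀ A B, g (A ∪ B) + g (A ∩ B) ≤ g A + g B + T) (P L : Finset ι)
    {c : ℝ} (h : ∀ s ∈ L, g (insert s P) ≤ g P + c) (M : Finset ι) (hM : M ⊆ L) :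
    g (P ∪ M) ≤ g P + M.card * (c + T) := by
  induction M using Finset.induction_on with
  | empty => simp
  | insert s M hsM ih =>
    have h1 := ih ((subset_insert s M).trans hM)
    have h2 := h s (hM (mem_insert_self s M))
    have h3 := hs (P ∪ M) (insert s P)
    have e1 : P ∪ M ∪ insert s P = P ∪ insert s M := by
      ext x
      simp only [mem_union, mem_insert]
      tauto
    have e2 : (P ∪ M) ∩ insert s P = P := by
      ext x
      simp only [mem_inter, mem_union, mem_insert]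
      constructor
      · rintro ⟨h1 | h1, h2 | h2⟩
        exacts [h1, h1, (hsM (h2 ▸ h1)).elim, h2]
      · tauto
    rw [e1, e2] at h3
    rw [card_insert_of_notMem hsM]
    push_cast
    linarith

private lemma mat_arith (hT : 0 ≤ T) (hD : 0 ≤ D)
    (hs : ∀ A B, g (A ∪ B) + g (A ∩ B) ≤ g A + g B + T)
    (hm : ∀ A B, A ⊆ B → g A ≤ g B + T)
    (ha : ∀ A B, A ⊆ B → g B ≤ g A + (B.card - A.card : ℝ) * κ) (h0 : g ∅ = 0)
    {S S' P L : Finset ι} {i j : ℕ} (hij : i < j) (hd : Disjoint S S') (hP : P ⊆ S) (hL : L ⊆ S')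
    (cS : S.card = j) (cS' : S'.card = j) (cP : P.card = i) (cL : L.card = i + 1)
    (gS : j * κ - T ≤ g S) (gS' : j * κ - T ≤ g S')
    (hx : ∀ l ∈ S \ P, ∀ u ∈ L, g ((insert u S).erase l) ≤ (j - 1) * κ + D) :
    κ ≤ j * ((j + 1) * (D + 3 * T) + 2 * T) + 2 * T := by
  have cR : (S \ P).card = j - i := by rw [card_sdiff_of_subset hP, cS, cP]
  have cR' : ((S \ P).card : ℝ) = j - i := by rw [cR, Nat.cast_sub hij.le]
  have hi0 : (0 : ℝ) ≤ i := Nat.cast_nonneg i
  have hij' : (i : ℝ) + 1 ≤ j := by exact_mod_cast hij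
  have gP : i * κ - T ≤ g P := by
    have := ha P S hP
    rw [cS, cP] at this
    linarith
  have gP' : g P ≤ i * κ := by
    have := ha ∅ P (empty_subset P)
    rw [cP, h0, card_empty] at this
    push_cast at this
    linarith
  have gL : (i + 1) * κ - T ≤ g L := by
    have := ha L S' hL
    rw [cS', cL] at this
    push_cast at this
    linarith
  have key : ∀ u ∈ L, g (insert u P) ≤ g P + ((j + 1) * (D + 3 * T) + T) := by
    intro u hu
    have huS : u ∉ S := fun h => disjoint_left.1 hd h (hL hu)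
    have h1 : j * κ - 2 * T ≤ g (insert u S) := by
      have := hm S (insert u S) (subset_insert u S)
      linarith
    obtain ⟨l, hl⟩ : (S \ P).Nonempty := card_pos.1 (by omega)
    have h2 : g (insert u S) ≤ j * κ + D := by
      have h3 := ha _ _ (erase_subset l (insert u S))
      rw [cast_card_erase_of_mem (mem_insert_of_mem (mem_sdiff.1 hl).1)] at h3
      have := hx l hl u hu
      linarith
    have h4 := mat_down hs (insert u S) (S \ P) (c := κ - D - 2 * T)
      (fun s hs' => by have := hx s hs' u hu; linarith) (S \ P) Subset.rfl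
    have e : insert u S \ (S \ P) = insert u P := by
      ext x
      simp only [mem_sdiff, mem_insert]
      constructor
      · tauto
      · rintro (rfl | h)
        · tauto
        · exact ⟨Or.inr (hP h), fun h' => h'.2 h⟩
    rw [e, cR'] at h4
    nlinarith [mul_nonneg hi0 hD, mul_nonneg hi0 hT]
  have h5 := mat_up hs P L key L Subset.rfl
  have h6 := hm L (P ∪ L) subset_union_right
  rw [cL] at h5
  push_cast at h5
  have h7 : 0 ≤ ((j : ℝ) + 1) * (D + 3 * T) + T + T := by positivity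
  have h8 := mul_le_mul_of_nonneg_right hij' h7
  linarith

end Abstract

section Entropy

variable {Ω ι α : Type} [Fintype Ω] [DecidableEq ι] [AddCommGroup α] (V : ι → Ω → α)

private lemma mat_dp {A B C : Type} (a : Ω → A) (f : Ω → B) (z : Ω → C)
    (h : ∀ ω ω', a ω = a ω' → f ω = f ω') :
    H (fun ω => (a ω, z ω)) + H f ≤ H a + H (fun ω => (f ω, z ω)) := by
  have h1 := H_submod a z f
  have h2 := H_mono (fun ω => (a ω, z ω)) (fun ω => (a ω, z ω, f ω)) fun ω ω' e => by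
    simp only [Prod.mk.injEq] at e ⊢
    exact ⟨e.1, e.2.1⟩
  have h3 := H_mono (fun ω => (a ω, f ω)) a fun ω ω' e => Prod.ext e (h ω ω' e)
  have h4 := H_mono (fun ω => (z ω, f ω)) (fun ω => (f ω, z ω)) fun ω ω' e => by
    simp only [Prod.mk.injEq] at e ⊢
    exact ⟨e.2, e.1⟩
  linarith

/-- restriction to a set of coordinates -/
private def matRes (I : Finset ι) (ω : Ω) : I → α := fun i => V i ω

/-- sum over a set of coordinates -/
private def matSum (I : Finset ι) (ω : Ω) : α := ∑ i ∈ I, V i ω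

omit [Fintype Ω] [DecidableEq ι] [AddCommGroup α] in
private lemma matRes_eq {I : Finset ι} {ω ω' : Ω} :
    matRes V I ω = matRes V I ω' ↔ ∀ i ∈ I, V i ω = V i ω' :=
  ⟨fun h i hi => congrFun h ⟨i, hi⟩, fun h => funext fun i => h i i.2⟩

omit [Fintype Ω] [DecidableEq ι] in
private lemma matSum_of_res (I : Finset ι) (ω ω' : Ω) (h : matRes V I ω = matRes V I ω') :
    matSum V I ω = matSum V I ω' :=
  sum_congr rfl ((matRes_eq V).1 h)

omit [Fintype Ω] in
private lemma matSum_union {I J : Finset ι} (h : Disjoint I J) :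
    matSum V (I ∪ J) = fun ω => matSum V I ω + matSum V J ω :=
  funext fun _ => sum_union h

omit [AddCommGroup α] in
private lemma matF_union (I J : Finset ι) :
    H (matRes V (I ∪ J)) ≤ H (matRes V I) + H (matRes V J) := by
  refine (H_mono _ _ fun ω ω' e => ?_).trans (H_pair _ _)
  simp only [Prod.mk.injEq, matRes_eq] at e ⊢
  exact fun i hi => (mem_union.1 hi).elim (e.1 i) (e.2 i)

variable {V} {κ T : ℝ}

omit [AddCommGroup α] in
private lemma matF_le (h1 : ∀ i, H (V i) ≤ κ) (I : Finset ι) : H (matRes V I) ≤ I.card * κ := by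
  induction I using Finset.induction_on with
  | empty =>
    rw [H_const _ fun ω ω' => (matRes_eq V).2 (by simp)]
    simp
  | insert s I hs ih =>
    have h2 := matF_union V {s} I
    have h3 := H_mono (matRes V {s}) (V s) fun ω ω' e => (matRes_eq V).2 (by simpa using e)
    have h4 := h1 s
    rw [card_insert_of_notMem hs, insert_eq]
    push_cast
    linarith

omit [AddCommGroup α] in
private lemma matF_ge [Fintype ι] (h1 : ∀ i, H (V i) ≤ κ)
    (h2 : Fintype.card ι * κ - T ≤ H (matRes V univ)) (I : Finset ι) :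
    I.card * κ - T ≤ H (matRes V I) := by
  have h3 := matF_union V I Iᶜ
  have h4 := matF_le h1 Iᶜ
  have h5 : (I.card : ℝ) + (Iᶜ).card = Fintype.card ι := by exact_mod_cast card_add_card_compl I
  rw [union_compl] at h3
  rw [← h5] at h2
  linarith

private lemma mat_three [Fintype ι] (h1 : ∀ i, H (V i) ≤ κ)
    (h2 : Fintype.card ι * κ - T ≤ H (matRes V univ)) {I J K : Finset ι} (d1 : Disjoint I J)
    (d2 : Disjoint I K) (d3 : Disjoint J K) :
    H (matSum V I) + H (matSum V J) + H (matSum V K) ≤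
      H (fun ω => (matSum V I ω, matSum V J ω, matSum V K ω)) + T := by
  have a1 := mat_dp (matRes V I) (matSum V I) (fun ω => (matRes V J ω, matRes V K ω))
    (matSum_of_res V I)
  have a2 := mat_dp (matRes V J) (matSum V J) (fun ω => (matSum V I ω, matRes V K ω))
    (matSum_of_res V J)
  have a3 := mat_dp (matRes V K) (matSum V K) (fun ω => (matSum V I ω, matSum V J ω))
    (matSum_of_res V K)
  have b0 := H_mono (matRes V (I ∪ J ∪ K)) (fun ω => (matRes V I ω, matRes V J ω, matRes V K ω))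
    fun ω ω' e => by
      simp only [Prod.mk.injEq, matRes_eq] at e ⊢
      exact fun i hi => (mem_union.1 hi).elim
        (fun hi => (mem_union.1 hi).elim (e.1 i) (e.2.1 i)) (e.2.2 i)
  have b1 := H_mono (fun ω => (matSum V I ω, matRes V J ω, matRes V K ω))
    (fun ω => (matRes V J ω, matSum V I ω, matRes V K ω)) fun ω ω' e => by
      simp only [Prod.mk.injEq] at e ⊢
      exact ⟨e.2.1, e.1, e.2.2⟩
  have b2 := H_mono (fun ω => (matSum V J ω, matSum V I ω, matRes V K ω))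
    (fun ω => (matRes V K ω, matSum V I ω, matSum V J ω)) fun ω ω' e => by
      simp only [Prod.mk.injEq] at e ⊢
      exact ⟨e.2.2, e.2.1, e.1⟩
  have b3 := H_mono (fun ω => (matSum V K ω, matSum V I ω, matSum V J ω))
    (fun ω => (matSum V I ω, matSum V J ω, matSum V K ω)) fun ω ω' e => by
      simp only [Prod.mk.injEq] at e ⊢
      exact ⟨e.2.2, e.1, e.2.1⟩
  have c0 := matF_ge h1 h2 (I ∪ J ∪ K)
  rw [card_union_of_disjoint (disjoint_union_left.2 ⟨d2, d3⟩), card_union_of_disjoint d1] at c0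
  push_cast at c0
  have c1 := matF_le h1 I
  have c2 := matF_le h1 J
  have c3 := matF_le h1 K
  linarith

private lemma mat_sub [Fintype ι] (h1 : ∀ i, H (V i) ≤ κ)
    (h2 : Fintype.card ι * κ - T ≤ H (matRes V univ)) (A B : Finset ι) :
    H (matSum V (A ∪ B)) + H (matSum V (A ∩ B)) ≤ H (matSum V A) + H (matSum V B) + T := by
  have d1 : Disjoint (A ∩ B) (A \ B) := (disjoint_sdiff_inter A B).symm
  have d2 : Disjoint (A ∩ B) (B \ A) := by
    rw [inter_comm]
    exact (disjoint_sdiff_inter B A).symm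
  have d3 : Disjoint (A \ B) (B \ A) := disjoint_sdiff_sdiff
  have e1 : matSum V A = fun ω => matSum V (A ∩ B) ω + matSum V (A \ B) ω := by
    rw [← matSum_union V d1, union_comm, sdiff_union_inter]
  have e2 : matSum V B = fun ω => matSum V (A ∩ B) ω + matSum V (B \ A) ω := by
    rw [← matSum_union V d2, union_comm, inter_comm, sdiff_union_inter]
  have e3 : matSum V (A ∪ B) =
      fun ω => matSum V (A ∩ B) ω + matSum V (A \ B) ω + matSum V (B \ A) ω := by
    rw [← union_sdiff_self_eq_union, matSum_union V disjoint_sdiff, e1]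
  have a0 := mat_three h1 h2 d1 d2 d3
  rw [e3, e1, e2]
  generalize matSum V (A ∩ B) = P at a0 ⊢
  generalize matSum V (A \ B) = Q at a0 ⊢
  generalize matSum V (B \ A) = R at a0 ⊢
  have a1 := H_submod Q R fun ω => P ω + Q ω + R ω
  have a2 := H_mono (fun ω => (P ω, Q ω, R ω)) (fun ω => (Q ω, R ω, P ω + Q ω + R ω))
    fun ω ω' e => by
      simp only [Prod.mk.injEq] at e ⊢
      obtain ⟨e1, e2, e3⟩ := e
      rw [e1, e2] at e3
      exact ⟨add_right_cancel (add_right_cancel e3), e1, e2⟩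
  have a3 := H_mono (fun ω => (Q ω, P ω + Q ω + R ω)) (fun ω => (Q ω, P ω + R ω))
    fun ω ω' e => by
      simp only [Prod.mk.injEq] at e ⊢
      refine ⟨e.1, ?_⟩
      rw [add_right_comm, e.2, e.1, add_right_comm]
  have a4 := H_mono (fun ω => (R ω, P ω + Q ω + R ω)) (fun ω => (R ω, P ω + Q ω))
    fun ω ω' e => by
      simp only [Prod.mk.injEq] at e ⊢
      exact ⟨e.1, by rw [e.2, e.1]⟩
  have a5 := H_pair Q fun ω => P ω + R ω
  have a6 := H_pair R fun ω => P ω + Q ω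
  linarith

omit [DecidableEq ι] in
private lemma mat_empty : H (matSum V ∅) = 0 := H_const _ fun _ _ => rfl

private lemma mat_mono [Fintype ι] (h1 : ∀ i, H (V i) ≤ κ)
    (h2 : Fintype.card ι * κ - T ≤ H (matRes V univ)) (A B : Finset ι) (h : A ⊆ B) :
    H (matSum V A) ≤ H (matSum V B) + T := by
  have e1 : matSum V B = fun ω => matSum V A ω + matSum V (B \ A) ω := by
    rw [← matSum_union V disjoint_sdiff, union_sdiff_of_subset h]
  have a0 := mat_three h1 h2 (I := A) (J := B \ A) (K := ∅) disjoint_sdiff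
    (disjoint_empty_right _) (disjoint_empty_right _)
  rw [mat_empty] at a0
  rw [e1]
  generalize matSum V A = P at a0 ⊢
  generalize matSum V (B \ A) = Q at a0 ⊢
  have a1 := H_mono (fun ω => (P ω, Q ω, matSum V ∅ ω)) (fun ω => (P ω + Q ω, Q ω))
    fun ω ω' e => by
      simp only [Prod.mk.injEq] at e ⊢
      obtain ⟨e1, e2⟩ := e
      rw [e2] at e1
      exact ⟨add_right_cancel e1, e2, rfl⟩
  have a2 := H_pair (fun ω => P ω + Q ω) Q
  linarith

private lemma mat_add (h1 : ∀ i, H (V i) ≤ κ) (A B : Finset ι) (h : A ⊆ B) :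
    H (matSum V B) ≤ H (matSum V A) + (B.card - A.card : ℝ) * κ := by
  have e1 : matSum V B = fun ω => matSum V A ω + matSum V (B \ A) ω := by
    rw [← matSum_union V disjoint_sdiff, union_sdiff_of_subset h]
  have a1 := H_mono (fun ω => matSum V A ω + matSum V (B \ A) ω)
    (fun ω => (matSum V A ω, matSum V (B \ A) ω)) fun ω ω' e => by
      simp only [Prod.mk.injEq] at e
      rw [e.1, e.2]
  have a2 := H_pair (matSum V A) (matSum V (B \ A))
  have a3 := H_mono _ _ (matSum_of_res V (B \ A))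
  have a4 := matF_le h1 (B \ A)
  rw [cast_card_sdiff h] at a4
  rw [e1]
  linarith

end Entropy

/-- Two dense families of `j`-tuples with distinct sums: it cannot be that every exchange of a
coordinate `l ≥ i` of the first by a coordinate `u ≤ i` of the second lands in a small set. -/
theorem exchange (j : ℕ) (γ C : ℝ) (hγ : 0 < γ) (hC : 0 < C) :
    ∃ k₀ : ℕ, ∀ (α β : Type) [AddCommGroup α] (k : ℕ) (G R : Finset α) (E E' : Finset β)
      (X Y : β → Fin j → α) (i : Fin j), k₀ ≤ k → G.card ≤ k →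
      (∀ b ∈ E, ∀ h, X b h ∈ G) → (∀ b ∈ E', ∀ h, Y b h ∈ G) →
      Set.InjOn (fun b => ∑ h, X b h) E → Set.InjOn (fun b => ∑ h, Y b h) E' →
      γ * (k : ℝ) ^ j ≤ E.card → γ * (k : ℝ) ^ j ≤ E'.card →
      (R.card : ℝ) ≤ C * (k : ℝ) ^ (j - 1) →
      (∀ b ∈ E, ∀ b' ∈ E', ∀ l u : Fin j, i ≤ l → u ≤ i →
        (∑ h ∈ univ.erase l, X b h) + Y b' u ∈ R) → False := by
  set T : ℝ := -2 * Real.log (min γ 1) with hTdef
  set D : ℝ := Real.log (max C 1) with hDdef
  have hγ' : 0 < min γ 1 := lt_min hγ one_pos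
  have hT : 0 ≤ T := by
    have := Real.log_nonpos hγ'.le (min_le_right γ 1)
    linarith
  have hD : 0 ≤ D := Real.log_nonneg (le_max_right C 1)
  refine ⟨⌈Real.exp (j * ((j + 1) * (D + 3 * T) + 2 * T) + 2 * T)⌉₊ + 1, ?_⟩
  intro α β _ k G R E E' X Y i hk hG hX hY iX iY cE cE' cR hx
  classical
  have hk0 : (0 : ℝ) < k := Nat.cast_pos.2 (by omega)
  have hκ : j * ((j + 1) * (D + 3 * T) + 2 * T) + 2 * T < Real.log k := by
    rw [Real.lt_log_iff_exp_lt hk0]
    refine (Nat.le_ceil _).trans_lt ?_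
    exact_mod_cast hk
  have hlog : ∀ n : ℕ, γ * (k : ℝ) ^ j ≤ n → 0 < n ∧ j * Real.log k - T / 2 ≤ Real.log n := by
    intro n hn
    have h1 : min γ 1 * (k : ℝ) ^ j ≤ n :=
      (mul_le_mul_of_nonneg_right (min_le_left γ 1) (by positivity)).trans hn
    have h2 : 0 < min γ 1 * (k : ℝ) ^ j := by positivity
    have h3 := Real.log_le_log h2 h1
    rw [Real.log_mul hγ'.ne' (by positivity), Real.log_pow] at h3
    exact ⟨Nat.cast_pos.1 (h2.trans_le h1), by linarith⟩
  obtain ⟨pE, lE⟩ := hlog _ cE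
  obtain ⟨pE', lE'⟩ := hlog _ cE'
  obtain ⟨b0, hb0⟩ := card_pos.1 pE
  obtain ⟨b0', hb0'⟩ := card_pos.1 pE'
  have : Nonempty (E × E') := ⟨(⟨b0, hb0⟩, ⟨b0', hb0'⟩)⟩
  let V : Fin j ⊕ Fin j → E × E' → α := fun h ω => Sum.elim (X ω.1) (Y ω.2) h
  have h1 : ∀ h, H (V h) ≤ Real.log k := by
    intro h
    refine (H_le_log (V h) G fun ω => ?_).trans (Real.log_le_log ?_ (by exact_mod_cast hG))
    · rcases h with h | h
      · exact hX _ ω.1.2 h
      · exact hY _ ω.2.2 h
    · exact Nat.cast_pos.2 (card_pos.2 ⟨_, hX b0 hb0 i⟩)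
  have sX : matSum V (univ.map Function.Embedding.inl) = fun ω => ∑ h, X ω.1 h :=
    funext fun ω => sum_map _ _ _
  have sY : matSum V (univ.map Function.Embedding.inr) = fun ω => ∑ h, Y ω.2 h :=
    funext fun ω => sum_map _ _ _
  have full : H (fun ω : E × E' => (∑ h, X ω.1 h, ∑ h, Y ω.2 h)) =
      Real.log E.card + Real.log E'.card := by
    rw [H_inj, Fintype.card_prod, Fintype.card_coe, Fintype.card_coe, Nat.cast_mul,
      Real.log_mul (Nat.cast_ne_zero.2 pE.ne') (Nat.cast_ne_zero.2 pE'.ne')]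
    intro ω ω' e
    exact Prod.ext (Subtype.ext (iX ω.1.2 ω'.1.2 (congrArg Prod.fst e)))
      (Subtype.ext (iY ω.2.2 ω'.2.2 (congrArg Prod.snd e)))
  have h2 : Fintype.card (Fin j ⊕ Fin j) * Real.log k - T ≤ H (matRes V univ) := by
    have := H_mono (fun ω : E × E' => (∑ h, X ω.1 h, ∑ h, Y ω.2 h)) (matRes V univ)
      fun ω ω' e => Prod.ext
        (sum_congr rfl fun h _ => (matRes_eq V).1 e (Sum.inl h) (mem_univ _))
        (sum_congr rfl fun h _ => (matRes_eq V).1 e (Sum.inr h) (mem_univ _))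
    rw [Fintype.card_sum, Fintype.card_fin]
    push_cast
    linarith
  have p0 := H_pair (fun ω : E × E' => ∑ h, X ω.1 h) fun ω => ∑ h, Y ω.2 h
  have p1 := H_le_log (fun ω : E × E' => ∑ h, X ω.1 h) (E.image fun b => ∑ h, X b h)
    fun ω => mem_image_of_mem _ ω.1.2
  have p2 := H_le_log (fun ω : E × E' => ∑ h, Y ω.2 h) (E'.image fun b => ∑ h, Y b h)
    fun ω => mem_image_of_mem _ ω.2.2
  rw [card_image_of_injOn iX] at p1
  rw [card_image_of_injOn iY] at p2
  refine absurd (mat_arith (g := fun I => H (matSum V I)) (κ := Real.log k) hT hD (mat_sub h1 h2)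
    (mat_mono h1 h2) (mat_add h1) mat_empty (S := univ.map Function.Embedding.inl)
    (S' := univ.map Function.Embedding.inr) (P := (Iio i).map Function.Embedding.inl)
    (L := (Iic i).map Function.Embedding.inr) i.2 (by simp [disjoint_left])
    (map_subset_map.2 (subset_univ _)) (map_subset_map.2 (subset_univ _)) (by simp) (by simp)
    (by simp) (by simp) (by simp only [sX]; linarith) (by simp only [sY]; linarith) ?_)
    (not_le.2 hκ)
  intro l hl u hu
  obtain ⟨l, -, rfl⟩ := mem_map.1 (mem_sdiff.1 hl).1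
  obtain ⟨u, hu', rfl⟩ := mem_map.1 hu
  have hil : i ≤ l := not_lt.1 fun h => (mem_sdiff.1 hl).2 (mem_map_of_mem _ (mem_Iio.2 h))
  have hR : (0 : ℝ) < R.card :=
    Nat.cast_pos.2 (card_pos.2 ⟨_, hx b0 hb0 b0' hb0' l u hil (mem_Iic.1 hu')⟩)
  refine (H_le_log _ R fun ω => ?_).trans ?_
  · have e : matSum V ((insert (Function.Embedding.inr u) (univ.map Function.Embedding.inl)).erase
        (Function.Embedding.inl l)) ω = (∑ h ∈ univ.erase l, X ω.1 h) + Y ω.2 u := by
      rw [erase_insert_of_ne (by simp), ← map_erase, matSum, sum_insert (by simp), sum_map,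
        add_comm]
      rfl
    rw [e]
    exact hx _ ω.1.2 _ ω.2.2 l u hil (mem_Iic.1 hu')
  · have h3 := Real.log_le_log hR
      (cR.trans (mul_le_mul_of_nonneg_right (le_max_left C 1) (by positivity)))
    rw [Real.log_mul (lt_max_of_lt_left hC).ne' (by positivity), Real.log_pow,
      Nat.cast_sub (Nat.one_le_of_lt i.2), Nat.cast_one] at h3
    linarith

end Pool.Agent.Lib.MP_299528_co.Bd
end
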