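import Pool.Agent.Lib.MP_299528_co.W.Defs
import Pool.Agent.Lib.MP_299528_co.Bd.Mat

-- part Pool.Agent.Lib.MP_299528_co.Bd.Tup
section

/-! Orderings of multisets, shadows, and the surplus of unused pairs. -/

set_option autoImplicit false

namespace Pool.Agent.Lib.MP_299528_co.Bd

open Finset

/-- The multiset of values of a tuple. -/
def ms {l : ℕ} (v : Fin l → ℕ) : Multiset ℕ := (univ : Finset (Fin l)).val.map v

private theorem ms_eq_sum {l : ℕ} (v : Fin l → ℕ) : ms v = ∑ i, ({v i} : Multiset ℕ) := by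
  unfold ms
  rw [Finset.sum_eq_multiset_sum]
  have h := Multiset.sum_map_singleton ((univ : Finset (Fin l)).val.map v)
  rw [Multiset.map_map] at h
  exact h.symm

private theorem ms_sum {l : ℕ} (v : Fin l → ℕ) : (ms v).sum = ∑ i, v i := rfl

private theorem ms_card {l : ℕ} (v : Fin l → ℕ) : Multiset.card (ms v) = l := by
  unfold ms
  simp

private theorem mem_ms {l : ℕ} (v : Fin l → ℕ) (g : ℕ) : g ∈ ms v ↔ ∃ i, v i = g := by
  unfold ms
  simp only [Multiset.mem_map, Finset.mem_val, Finset.mem_univ, true_and]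

private theorem ms_perm {l : ℕ} (v : Fin l → ℕ) (s : Equiv.Perm (Fin l)) : ms (v ∘ s) = ms v := by
  unfold ms
  rw [← Multiset.map_map, Multiset.map_univ_val_equiv]

private theorem mono_eq {l : ℕ} (v w : Fin l → ℕ) (hv : Monotone v) (hw : Monotone w)
    (h : ms v = ms w) : v = w := by
  unfold ms at h
  rw [Fin.univ_val_map, Fin.univ_val_map, Multiset.coe_eq_coe] at h
  exact List.ofFn_injective (h.eq_of_pairwise' hv.sortedLE_ofFn.pairwise hw.sortedLE_ofFn.pairwise)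

private theorem exists_perm {l : ℕ} (v w : Fin l → ℕ) (h : ms v = ms w) :
    ∃ s : Equiv.Perm (Fin l), w ∘ s = v := by
  have e : v ∘ Tuple.sort v = w ∘ Tuple.sort w :=
    mono_eq _ _ (Tuple.monotone_sort v) (Tuple.monotone_sort w) (by rw [ms_perm, ms_perm, h])
  refine ⟨(Tuple.sort v).symm.trans (Tuple.sort w), ?_⟩
  funext i
  have := congrFun e ((Tuple.sort v).symm i)
  simp only [Function.comp_apply, Equiv.apply_symm_apply] at this
  simp only [Function.comp_apply, Equiv.trans_apply]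
  exact this.symm

theorem exists_mono {l : ℕ} (t : Multiset ℕ) (h : Multiset.card t = l) :
    ∃ v : Fin l → ℕ, Monotone v ∧ ms v = t := by
  subst h
  induction t using Quotient.inductionOn with
  | h L =>
    refine ⟨L.get ∘ Tuple.sort L.get, Tuple.monotone_sort _, ?_⟩
    refine (ms_perm (l := L.length) L.get (Tuple.sort L.get)).trans ?_
    unfold ms
    rw [Fin.univ_val_map, List.ofFn_get]
    rfl

theorem card_fib_le {l : ℕ} (t : Multiset ℕ) (W : Finset (Fin l → ℕ)) (h : ∀ v ∈ W, ms v = t) :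
    W.card ≤ l.factorial := by
  classical
  rcases W.eq_empty_or_nonempty with hW | ⟨w, hw⟩
  · rw [hW]; exact Nat.zero_le _
  · have hsub : W ⊆ (univ : Finset (Equiv.Perm (Fin l))).image (fun s : Equiv.Perm (Fin l) => w ∘ s) := by
      intro v hv
      obtain ⟨s, hs⟩ := exists_perm v w ((h v hv).trans (h w hw).symm)
      exact mem_image.mpr ⟨s, mem_univ _, hs⟩
    calc W.card ≤ _ := card_le_card hsub
      _ ≤ (univ : Finset (Equiv.Perm (Fin l))).card := card_image_le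
      _ = l.factorial := by rw [card_univ, Fintype.card_perm, Fintype.card_fin]

theorem card_fib_eq {l : ℕ} (G : Finset ℕ) (t : Multiset ℕ) (h : Multiset.card t = l)
    (hn : t.Nodup) (hG : ∀ g ∈ t, g ∈ G) :
    ((Fintype.piFinset (fun _ : Fin l => G)).filter (fun v => ms v = t)).card = l.factorial := by
  classical
  obtain ⟨w, -, hw⟩ := exists_mono t h
  have hinj : Function.Injective w := by
    rw [← hw] at hn
    unfold ms at hn
    rw [Fin.univ_val_map, Multiset.coe_nodup, List.nodup_ofFn] at hn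
    exact hn
  have e : (Fintype.piFinset (fun _ : Fin l => G)).filter (fun v => ms v = t) =
      (univ : Finset (Equiv.Perm (Fin l))).image (fun s : Equiv.Perm (Fin l) => w ∘ s) := by
    ext v
    simp only [mem_filter, Fintype.mem_piFinset, mem_image, mem_univ, true_and]
    constructor
    · rintro ⟨-, hv⟩
      exact exists_perm v w (hv.trans hw.symm)
    · rintro ⟨s, rfl⟩
      refine ⟨fun a => hG _ ?_, (ms_perm w s).trans hw⟩
      rw [← hw, mem_ms]
      exact ⟨s a, rfl⟩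
  rw [e, card_image_of_injective, card_univ, Fintype.card_perm, Fintype.card_fin]
  intro s s' hs
  ext i
  have := hinj (congrFun hs i)
  rw [this]

theorem ms_cons {l : ℕ} (v : Fin (l + 1) → ℕ) (i : Fin (l + 1)) :
    ms v = v i ::ₘ ms (fun x => v (i.succAbove x)) := by
  rw [ms_eq_sum, ms_eq_sum, Fin.sum_univ_succAbove _ i, Multiset.singleton_add]

namespace Ap

variable (Y : Ap)

private theorem card_ord_le (l : ℕ) (P : Finset (Multiset ℕ)) :
    ((Fintype.piFinset (fun _ : Fin l => Y.G)).filter (fun v => ms v ∈ P)).card ≤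
      l.factorial * P.card := by
  classical
  apply card_le_mul_card_image_of_maps_to (f := fun v : Fin l → ℕ => ms v)
  · intro a ha
    exact (mem_filter.mp ha).2
  · intro b _
    exact card_fib_le b _ (fun v hv => (mem_filter.mp hv).2)

private theorem card_ord_top (l : ℕ) :
    ((Fintype.piFinset (fun _ : Fin l => Y.G)).filter (fun v => ms v ∈ Y.top l)).card =
      l.factorial * (Y.top l).card := by
  classical
  rw [card_eq_sum_card_fiberwise (f := fun v : Fin l → ℕ => ms v) (t := Y.top l)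
    (s := (Fintype.piFinset (fun _ : Fin l => Y.G)).filter (fun v => ms v ∈ Y.top l))
    (fun a ha => mem_coe.mpr (mem_filter.mp (mem_coe.mp ha)).2)]
  rw [mul_comm, ← smul_eq_mul, ← sum_const]
  apply sum_congr rfl
  intro t ht
  have ht' := mem_filter.mp ht
  rw [← card_fib_eq Y.G t ht'.2.1 ht'.2.2.1 (Y.memG t ht'.1)]
  congr 1
  ext v
  simp only [mem_filter]
  constructor
  · rintro ⟨⟨h1, -⟩, h2⟩
    exact ⟨h1, h2⟩
  · rintro ⟨h1, h2⟩
    exact ⟨⟨h1, h2 ▸ ht⟩, h2⟩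

private theorem proj_mem (l : ℕ) (v : Fin (l + 1) → ℕ) (hv : ms v ∈ Y.D) (i : Fin (l + 1)) :
    ms (fun x => v (i.succAbove x)) ∈ Y.low ∩ Y.lev l := by
  have e := ms_cons v i
  have hD : ms (fun x => v (i.succAbove x)) ∈ Y.D :=
    Y.down _ hv _ (by rw [e]; exact Multiset.le_cons_self _ _)
  have h1 := Y.lt _ hv
  have h2 : Y.m < v i := Y.hG _ (Y.memG _ hv _ ((mem_ms v _).mpr ⟨i, rfl⟩))
  rw [e, Multiset.sum_cons] at h1
  refine mem_inter.mpr ⟨mem_filter.mpr ⟨hD, by omega⟩, mem_filter.mpr ⟨hD, ms_card _⟩⟩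

/-- Shadow bound. -/
theorem shadow (l : ℕ) (hl : 1 ≤ l) :
    (Y.lev (l + 1)).card ^ l ≤ (l.factorial * Y.low.card) ^ (l + 1) := by
  classical
  have hL := loomis l hl
    ((Fintype.piFinset (fun _ : Fin (l + 1) => Y.G)).filter (fun v => ms v ∈ Y.lev (l + 1)))
    ((Fintype.piFinset (fun _ : Fin l => Y.G)).filter (fun v => ms v ∈ Y.low)) (by
      intro v hv i
      have hv' := mem_filter.mp hv
      refine mem_filter.mpr ⟨?_, (mem_inter.mp (Y.proj_mem l v (mem_filter.mp hv'.2).1 i)).1⟩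
      exact Fintype.mem_piFinset.mpr (fun a => Fintype.mem_piFinset.mp hv'.1 _))
  have h1 : (Y.lev (l + 1)).card ≤ ((Fintype.piFinset (fun _ : Fin (l + 1) => Y.G)).filter
      (fun v => ms v ∈ Y.lev (l + 1))).card := by
    apply card_le_card_of_surjOn (fun v : Fin (l + 1) → ℕ => ms v)
    intro t ht
    have ht' := mem_filter.mp (mem_coe.mp ht)
    obtain ⟨v, -, hv⟩ := exists_mono t ht'.2
    refine ⟨v, mem_coe.mpr (mem_filter.mpr ⟨Fintype.mem_piFinset.mpr (fun a => ?_), ?_⟩), hv⟩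
    · apply Y.memG t ht'.1
      rw [← hv, mem_ms]
      exact ⟨a, rfl⟩
    · rw [hv]; exact mem_coe.mp ht
  calc _ ≤ _ := Nat.pow_le_pow_left h1 l
    _ ≤ _ := hL
    _ ≤ _ := Nat.pow_le_pow_left (Y.card_ord_le l Y.low) (l + 1)

/-- Sharp shadow bound for the top elements. -/
theorem shadow_top (l : ℕ) (hl : 1 ≤ l) :
    ((l + 1).factorial * (Y.top (l + 1)).card) ^ l ≤
    (l.factorial * (Y.low ∩ Y.lev l).card) ^ (l + 1) := by
  classical
  have hL := loomis l hl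
    ((Fintype.piFinset (fun _ : Fin (l + 1) => Y.G)).filter (fun v => ms v ∈ Y.top (l + 1)))
    ((Fintype.piFinset (fun _ : Fin l => Y.G)).filter (fun v => ms v ∈ Y.low ∩ Y.lev l)) (by
      intro v hv i
      have hv' := mem_filter.mp hv
      refine mem_filter.mpr ⟨?_, Y.proj_mem l v (mem_filter.mp hv'.2).1 i⟩
      exact Fintype.mem_piFinset.mpr (fun a => Fintype.mem_piFinset.mp hv'.1 _))
  rw [Y.card_ord_top] at hL
  exact hL.trans (Nat.pow_le_pow_left (Y.card_ord_le l _) (l + 1))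

/-- The top elements as monotone tuples. -/
theorem exists_tup (j : ℕ) : ∃ E : Finset (Fin j → ℕ), E.card = (Y.top j).card ∧
    (∀ v ∈ E, Monotone v ∧ (∀ h, v h ∈ Y.G) ∧ Y.c ≤ ∑ h, v h ∧ ∑ h, v h < Y.c + Y.m) ∧
    Set.InjOn (fun v : Fin j → ℕ => ∑ h, v h) E ∧
    ∀ F : ℕ → ℕ → ℝ, ∑ v ∈ E, ∑ h, F (∑ x, v x) (v h) =
      ∑ t ∈ Y.top j, (t.map (fun g => F t.sum g)).sum := by
  classical
  have hch : ∀ t : Multiset ℕ, ∃ v : Fin j → ℕ, Multiset.card t = j → Monotone v ∧ ms v = t := by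
    intro t
    by_cases h : Multiset.card t = j
    · obtain ⟨v, hv⟩ := exists_mono t h
      exact ⟨v, fun _ => hv⟩
    · exact ⟨fun _ => 0, fun h' => absurd h' h⟩
  choose f hf using hch
  have hms : ∀ t ∈ Y.top j, ms (f t) = t := fun t ht => (hf t (mem_filter.mp ht).2.1).2
  have hinj : Set.InjOn f (Y.top j) := by
    intro s hs t ht h
    rw [← hms s hs, ← hms t ht, h]
  have hsum : ∀ t ∈ Y.top j, ∑ h, f t h = t.sum := by
    intro t ht
    rw [← ms_sum, hms t ht]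
  refine ⟨(Y.top j).image f, card_image_of_injOn hinj, ?_, ?_, ?_⟩
  · intro v hv
    obtain ⟨t, ht, rfl⟩ := mem_image.mp hv
    have ht' := mem_filter.mp ht
    refine ⟨(hf t ht'.2.1).1, fun h => Y.memG t ht'.1 _ ?_, ?_, ?_⟩
    · have : f t h ∈ ms (f t) := (mem_ms _ _).mpr ⟨h, rfl⟩
      rwa [hms t ht] at this
    · rw [hsum t ht]; exact ht'.2.2.2
    · rw [hsum t ht]; exact Y.lt t ht'.1
  · intro v hv w hw h
    obtain ⟨s, hs, rfl⟩ := mem_image.mp (mem_coe.mp hv)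
    obtain ⟨t, ht, rfl⟩ := mem_image.mp (mem_coe.mp hw)
    have h' : s.sum = t.sum := by
      rw [← hsum s hs, ← hsum t ht]; exact h
    rw [Y.inj s (mem_filter.mp hs).1 t (mem_filter.mp ht).1 (by rw [h'])]
  · intro F
    rw [sum_image hinj]
    apply sum_congr rfl
    intro t ht
    rw [hsum t ht]
    conv_rhs => rw [← hms t ht]
    rw [hms t ht]
    have : t.map (fun g => F t.sum g) = (ms (f t)).map (fun g => F t.sum g) := by rw [hms t ht]
    rw [this]
    unfold ms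
    rw [Multiset.map_map]
    rfl

end Ap

/-- A positive proportion of unused pairs. -/
theorem surplus (j : ℕ) (hj : 1 ≤ j) : ∃ σ : ℝ, 0 < σ ∧ σ ≤ 1 ∧ ∀ Y : Ap, 2 ≤ Y.m → 1 ≤ Y.k →
    ((j + 1).factorial : ℝ) * Y.m ≤
      (j + 1).factorial * (Y.top (j + 1)).card + σ * (Y.k : ℝ) ^ (j + 1) →
    (j + 1 + σ) * (Y.top (j + 1)).card ≤ (Y.k : ℝ) * (Y.low ∩ Y.lev j).card := by
  classical
  obtain ⟨σ, h0, h1, hσ⟩ := fourier_gap (j + 1) (by omega)
  refine ⟨σ, h0, h1, fun Y hm hk hyp => ?_⟩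
  by_contra hcon
  rw [not_le] at hcon
  set W := (Fintype.piFinset (fun _ : Fin (j + 1) => Y.G)).filter
    (fun v => ms v ∈ Y.top (j + 1)) with hW
  have hinj : Set.InjOn (fun t : Multiset ℕ => t.sum) (Y.top (j + 1)) := by
    intro s hs t ht h
    have h' : s.sum = t.sum := h
    exact Y.inj s (mem_filter.mp (mem_coe.mp hs)).1 t (mem_filter.mp (mem_coe.mp ht)).1
      (by rw [h'])
  have hT : ((Y.top (j + 1)).image (fun t : Multiset ℕ => t.sum)).card = (Y.top (j + 1)).card :=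
    card_image_of_injOn hinj
  have hlt := hσ Y.m Y.c Y.G ((Y.top (j + 1)).image (fun t : Multiset ℕ => t.sum)) W hm
    (card_pos.mp hk)
    (by
      intro v hv
      have hv' := mem_filter.mp hv
      exact ⟨Fintype.mem_piFinset.mp hv'.1, mem_image.mpr ⟨ms v, hv'.2, ms_sum v⟩⟩)
    (by
      intro x hx
      obtain ⟨t, ht, rfl⟩ := mem_image.mp hx
      have ht' := mem_filter.mp ht
      exact ⟨ht'.2.2.2, Y.lt t ht'.1⟩)
    (by
      intro x hx
      obtain ⟨t, ht, rfl⟩ := mem_image.mp hx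
      have ht' := mem_filter.mp ht
      rw [← card_fib_eq Y.G t ht'.2.1 ht'.2.2.1 (Y.memG t ht'.1)]
      congr 1
      ext v
      simp only [hW, mem_filter]
      constructor
      · rintro ⟨⟨a1, a2⟩, a3⟩
        exact ⟨a1, hinj (mem_coe.mpr a2) (mem_coe.mpr ht) ((ms_sum v).trans a3)⟩
      · rintro ⟨a1, a2⟩
        exact ⟨⟨a1, a2 ▸ ht⟩, by rw [← ms_sum, a2]⟩)
    (by rw [hT]; exact hyp)
  have hWc : W.card = (j + 1).factorial * (Y.top (j + 1)).card := Y.card_ord_top (j + 1)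
  have hsh := Y.shadow_top j hj
  rw [← hWc] at hsh
  have hsh' : (W.card : ℝ) ^ j ≤ ((j.factorial : ℝ) * (Y.low ∩ Y.lev j).card) ^ (j + 1) := by
    exact_mod_cast hsh
  have hWr : (W.card : ℝ) = (j + 1) * j.factorial * (Y.top (j + 1)).card := by
    rw [hWc, Nat.factorial_succ]; push_cast; ring
  have hkG : (Y.G.card : ℝ) = Y.k := rfl
  rw [hkG] at hlt
  set k : ℝ := (Y.k : ℝ) with hkdef
  set a : ℝ := ((Y.low ∩ Y.lev j).card : ℝ) with hadef
  set p : ℝ := ((Y.top (j + 1)).card : ℝ) with hpdef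
  set w : ℝ := (W.card : ℝ) with hwdef
  have hk0 : 0 ≤ k := Nat.cast_nonneg _
  have ha0 : 0 ≤ a := Nat.cast_nonneg _
  have hj0 : (0 : ℝ) < (j : ℝ) + 1 := by positivity
  have hf0 : (0 : ℝ) < j.factorial := by exact_mod_cast Nat.factorial_pos j
  have hp0 : 0 < p := by
    have h2 : 0 < (j + 1 + σ) * p := lt_of_le_of_lt (mul_nonneg hk0 ha0) hcon
    exact (mul_pos_iff_of_pos_left (by linarith)).mp h2
  have hw0 : 0 < w := by rw [hWr]; positivity
  have h3 : k * (j.factorial * a) ≤ (1 + σ / (j + 1)) * w := by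
    have : (1 + σ / (j + 1)) * w = j.factorial * ((j + 1 + σ) * p) := by
      rw [hWr]; field_simp
    rw [this]
    nlinarith [mul_le_mul_of_nonneg_left hcon.le hf0.le]
  have h4 : (1 + σ / (j + 1)) ^ (j + 1) ≤ Real.exp σ := by
    have e1 : 1 + σ / (j + 1) ≤ Real.exp (σ / (j + 1)) := by
      have := Real.add_one_le_exp (σ / (j + 1)); linarith
    calc (1 + σ / (j + 1)) ^ (j + 1) ≤ (Real.exp (σ / (j + 1))) ^ (j + 1) :=
          pow_le_pow_left₀ (by positivity) e1 _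
      _ = Real.exp σ := by
          rw [← Real.exp_nat_mul]; congr 1; push_cast; field_simp
  have h5 : k ^ (j + 1) * w ^ j ≤ Real.exp σ * w * w ^ j := by
    calc k ^ (j + 1) * w ^ j ≤ k ^ (j + 1) * (j.factorial * a) ^ (j + 1) :=
          mul_le_mul_of_nonneg_left hsh' (pow_nonneg hk0 _)
      _ = (k * (j.factorial * a)) ^ (j + 1) := (mul_pow _ _ _).symm
      _ ≤ ((1 + σ / (j + 1)) * w) ^ (j + 1) := pow_le_pow_left₀ (by positivity) h3 _
      _ = (1 + σ / (j + 1)) ^ (j + 1) * w ^ (j + 1) := mul_pow _ _ _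
      _ ≤ Real.exp σ * w ^ (j + 1) := mul_le_mul_of_nonneg_right h4 (by positivity)
      _ = Real.exp σ * w * w ^ j := by ring
  have h6 : k ^ (j + 1) ≤ Real.exp σ * w := le_of_mul_le_mul_right h5 (pow_pos hw0 j)
  have h7 : Real.exp σ * (1 - σ) ≤ 1 := by
    have e1 : 1 - σ ≤ Real.exp (-σ) := by
      have := Real.add_one_le_exp (-σ); linarith
    calc Real.exp σ * (1 - σ) ≤ Real.exp σ * Real.exp (-σ) :=
          mul_le_mul_of_nonneg_left e1 (Real.exp_pos _).le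
      _ = 1 := by rw [← Real.exp_add]; simp
  have h8 : Real.exp σ * w < Real.exp σ * ((1 - σ) * k ^ (j + 1)) :=
    mul_lt_mul_of_pos_left hlt (Real.exp_pos _)
  have h9 : Real.exp σ * ((1 - σ) * k ^ (j + 1)) ≤ k ^ (j + 1) := by
    rw [← mul_assoc]
    exact mul_le_of_le_one_left (pow_nonneg hk0 _) h7
  linarith

end Pool.Agent.Lib.MP_299528_co.Bd
end

-- part Pool.Agent.Lib.MP_299528_co.W.Sur
section

/-! The surplus bound over a sub-alphabet. -/

set_option autoImplicit false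

namespace Pool.Agent.Lib.MP_299528_co.Bd

open Finset

private theorem sur_ms_sum {l : ℕ} (v : Fin l → ℕ) : (ms v).sum = ∑ i, v i := rfl

private theorem sur_card_ord_le (G : Finset ℕ) (l : ℕ) (P : Finset (Multiset ℕ)) :
    ((Fintype.piFinset (fun _ : Fin l => G)).filter (fun v => ms v ∈ P)).card ≤
      l.factorial * P.card := by
  classical
  apply card_le_mul_card_image_of_maps_to (f := fun v : Fin l → ℕ => ms v)
  · intro a ha
    exact (mem_filter.mp ha).2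
  · intro b _
    exact card_fib_le b _ (fun v hv => (mem_filter.mp hv).2)

private theorem sur_card_ord_top (G : Finset ℕ) (l : ℕ) (Tp : Finset (Multiset ℕ))
    (hT : ∀ t ∈ Tp, Multiset.card t = l ∧ t.Nodup ∧ ∀ g ∈ t, g ∈ G) :
    ((Fintype.piFinset (fun _ : Fin l => G)).filter (fun v => ms v ∈ Tp)).card =
      l.factorial * Tp.card := by
  classical
  rw [card_eq_sum_card_fiberwise (f := fun v : Fin l → ℕ => ms v) (t := Tp)
    (s := (Fintype.piFinset (fun _ : Fin l => G)).filter (fun v => ms v ∈ Tp))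
    (fun a ha => mem_coe.mpr (mem_filter.mp (mem_coe.mp ha)).2)]
  rw [mul_comm, ← smul_eq_mul, ← sum_const]
  apply sum_congr rfl
  intro t ht
  have ht' := hT t ht
  rw [← card_fib_eq G t ht'.1 ht'.2.1 ht'.2.2]
  congr 1
  ext v
  simp only [mem_filter]
  constructor
  · rintro ⟨⟨h1, -⟩, h2⟩
    exact ⟨h1, h2⟩
  · rintro ⟨h1, h2⟩
    exact ⟨⟨h1, h2 ▸ ht⟩, h2⟩

private theorem sur_shadow (G : Finset ℕ) (l : ℕ) (hl : 1 ≤ l) (Tp A : Finset (Multiset ℕ))
    (hT : ∀ t ∈ Tp, Multiset.card t = l + 1 ∧ t.Nodup ∧ ∀ g ∈ t, g ∈ G)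
    (hA : ∀ t ∈ Tp, ∀ g ∈ t, t.erase g ∈ A) :
    ((l + 1).factorial * Tp.card) ^ l ≤ (l.factorial * A.card) ^ (l + 1) := by
  classical
  have hL := loomis l hl
    ((Fintype.piFinset (fun _ : Fin (l + 1) => G)).filter (fun v => ms v ∈ Tp))
    ((Fintype.piFinset (fun _ : Fin l => G)).filter (fun v => ms v ∈ A)) (by
      intro v hv i
      have hv' := mem_filter.mp hv
      refine mem_filter.mpr ⟨?_, ?_⟩
      · exact Fintype.mem_piFinset.mpr (fun a => Fintype.mem_piFinset.mp hv'.1 _)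
      · have e := ms_cons v i
        have h1 := hA (ms v) hv'.2 (v i) (by rw [e]; exact Multiset.mem_cons_self _ _)
        rw [e, Multiset.erase_cons_head] at h1
        exact h1)
  rw [sur_card_ord_top G (l + 1) Tp hT] at hL
  exact hL.trans (Nat.pow_le_pow_left (sur_card_ord_le G l _) (l + 1))

private theorem sur_arith (j : ℕ) (σ k a p w : ℝ) (h0 : 0 < σ) (hk0 : 0 ≤ k) (ha0 : 0 ≤ a)
    (hWr : w = (j + 1) * j.factorial * p)
    (hsh' : w ^ j ≤ ((j.factorial : ℝ) * a) ^ (j + 1))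
    (hlt : w < (1 - σ) * k ^ (j + 1)) : (j + 1 + σ) * p ≤ k * a := by
  by_contra hcon
  rw [not_le] at hcon
  have hj0 : (0 : ℝ) < (j : ℝ) + 1 := by positivity
  have hf0 : (0 : ℝ) < j.factorial := by exact_mod_cast Nat.factorial_pos j
  have hp0 : 0 < p := by
    have h2 : 0 < (j + 1 + σ) * p := lt_of_le_of_lt (mul_nonneg hk0 ha0) hcon
    exact (mul_pos_iff_of_pos_left (by linarith)).mp h2
  have hw0 : 0 < w := by rw [hWr]; positivity
  have h3 : k * (j.factorial * a) ≤ (1 + σ / (j + 1)) * w := by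
    have : (1 + σ / (j + 1)) * w = j.factorial * ((j + 1 + σ) * p) := by
      rw [hWr]; field_simp
    rw [this]
    nlinarith [mul_le_mul_of_nonneg_left hcon.le hf0.le]
  have h4 : (1 + σ / (j + 1)) ^ (j + 1) ≤ Real.exp σ := by
    have e1 : 1 + σ / (j + 1) ≤ Real.exp (σ / (j + 1)) := by
      have := Real.add_one_le_exp (σ / (j + 1)); linarith
    calc (1 + σ / (j + 1)) ^ (j + 1) ≤ (Real.exp (σ / (j + 1))) ^ (j + 1) :=
          pow_le_pow_left₀ (by positivity) e1 _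
      _ = Real.exp σ := by
          rw [← Real.exp_nat_mul]; congr 1; push_cast; field_simp
  have h5 : k ^ (j + 1) * w ^ j ≤ Real.exp σ * w * w ^ j := by
    calc k ^ (j + 1) * w ^ j ≤ k ^ (j + 1) * (j.factorial * a) ^ (j + 1) :=
          mul_le_mul_of_nonneg_left hsh' (pow_nonneg hk0 _)
      _ = (k * (j.factorial * a)) ^ (j + 1) := (mul_pow _ _ _).symm
      _ ≤ ((1 + σ / (j + 1)) * w) ^ (j + 1) := pow_le_pow_left₀ (by positivity) h3 _
      _ = (1 + σ / (j + 1)) ^ (j + 1) * w ^ (j + 1) := mul_pow _ _ _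
      _ ≤ Real.exp σ * w ^ (j + 1) := mul_le_mul_of_nonneg_right h4 (by positivity)
      _ = Real.exp σ * w * w ^ j := by ring
  have h6 : k ^ (j + 1) ≤ Real.exp σ * w := le_of_mul_le_mul_right h5 (pow_pos hw0 j)
  have h7 : Real.exp σ * (1 - σ) ≤ 1 := by
    have e1 : 1 - σ ≤ Real.exp (-σ) := by
      have := Real.add_one_le_exp (-σ); linarith
    calc Real.exp σ * (1 - σ) ≤ Real.exp σ * Real.exp (-σ) :=
          mul_le_mul_of_nonneg_left e1 (Real.exp_pos _).le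
      _ = 1 := by rw [← Real.exp_add]; simp
  have h8 : Real.exp σ * w < Real.exp σ * ((1 - σ) * k ^ (j + 1)) :=
    mul_lt_mul_of_pos_left hlt (Real.exp_pos _)
  have h9 : Real.exp σ * ((1 - σ) * k ^ (j + 1)) ≤ k ^ (j + 1) := by
    rw [← mul_assoc]
    exact mul_le_of_le_one_left (pow_nonneg hk0 _) h7
  linarith

theorem surplus_sub (j : ℕ) (hj : 1 ≤ j) : ∃ σ : ℝ, 0 < σ ∧ σ ≤ 1 ∧
    ∀ (m c : ℕ) (G : Finset ℕ) (Tp A : Finset (Multiset ℕ)), 2 ≤ m → G.Nonempty →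
      (∀ t ∈ Tp, Multiset.card t = j + 1 ∧ t.Nodup ∧ (∀ g ∈ t, g ∈ G) ∧ c ≤ t.sum ∧
        t.sum < c + m) →
      Set.InjOn (fun t : Multiset ℕ => t.sum) Tp → (∀ t ∈ Tp, ∀ g ∈ t, t.erase g ∈ A) →
      (m : ℝ) ≤ (1 + σ) * Tp.card → (j + 1 + σ) * Tp.card ≤ (G.card : ℝ) * A.card := by
  classical
  obtain ⟨σ, h0, h1, hσ⟩ := fourier_gap (j + 1) (by omega)
  refine ⟨σ, h0, h1, fun m c G Tp A hm hG hTp hinj hA hyp => ?_⟩
  have hTp' : ∀ t ∈ Tp, Multiset.card t = j + 1 ∧ t.Nodup ∧ ∀ g ∈ t, g ∈ G :=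
    fun t ht => ⟨(hTp t ht).1, (hTp t ht).2.1, (hTp t ht).2.2.1⟩
  obtain ⟨W, hW⟩ : ∃ W : Finset (Fin (j + 1) → ℕ),
      W = (Fintype.piFinset (fun _ : Fin (j + 1) => G)).filter (fun v => ms v ∈ Tp) := ⟨_, rfl⟩
  have hT : (Tp.image (fun t : Multiset ℕ => t.sum)).card = Tp.card :=
    card_image_of_injOn hinj
  have hWc : W.card = (j + 1).factorial * Tp.card := by
    rw [hW]; exact sur_card_ord_top G (j + 1) Tp hTp'
  have hWle : W.card ≤ G.card ^ (j + 1) := by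
    rw [hW]
    refine (card_filter_le _ _).trans ?_
    rw [Fintype.card_piFinset_const]
  have hWle' : ((j + 1).factorial : ℝ) * Tp.card ≤ (G.card : ℝ) ^ (j + 1) := by
    rw [hWc] at hWle
    exact_mod_cast hWle
  have hf0 : (0 : ℝ) ≤ (j + 1).factorial := Nat.cast_nonneg _
  have hlt := hσ m c G (Tp.image (fun t : Multiset ℕ => t.sum)) W hm hG
    (by
      intro v hv
      rw [hW] at hv
      have hv' := mem_filter.mp hv
      exact ⟨Fintype.mem_piFinset.mp hv'.1, mem_image.mpr ⟨ms v, hv'.2, sur_ms_sum v⟩⟩)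
    (by
      intro x hx
      obtain ⟨t, ht, rfl⟩ := mem_image.mp hx
      exact (hTp t ht).2.2.2)
    (by
      intro x hx
      obtain ⟨t, ht, rfl⟩ := mem_image.mp hx
      have ht' := hTp' t ht
      rw [← card_fib_eq G t ht'.1 ht'.2.1 ht'.2.2]
      congr 1
      ext v
      simp only [hW, mem_filter]
      constructor
      · rintro ⟨⟨a1, a2⟩, a3⟩
        exact ⟨a1, hinj (mem_coe.mpr a2) (mem_coe.mpr ht) ((sur_ms_sum v).trans a3)⟩
      · rintro ⟨a1, a2⟩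
        exact ⟨⟨a1, a2 ▸ ht⟩, by rw [← sur_ms_sum, a2]⟩)
    (by
      rw [hT]
      have e1 := mul_le_mul_of_nonneg_left hyp hf0
      have e2 := mul_le_mul_of_nonneg_left hWle' h0.le
      linarith)
  have hsh := sur_shadow G j hj Tp A hTp' hA
  rw [← hWc] at hsh
  have hsh' : (W.card : ℝ) ^ j ≤ ((j.factorial : ℝ) * A.card) ^ (j + 1) := by
    exact_mod_cast hsh
  have hWr : (W.card : ℝ) = (j + 1) * j.factorial * Tp.card := by
    rw [hWc, Nat.factorial_succ]; push_cast; ring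
  exact sur_arith j σ G.card A.card Tp.card W.card h0 (Nat.cast_nonneg _) (Nat.cast_nonneg _)
    hWr hsh' hlt

theorem surplus_unif (J : ℕ) : ∃ σ : ℝ, 0 < σ ∧ σ ≤ 1 ∧ ∀ j, 1 ≤ j → j ≤ J →
    ∀ (m c : ℕ) (G : Finset ℕ) (Tp A : Finset (Multiset ℕ)), 2 ≤ m → G.Nonempty →
      (∀ t ∈ Tp, Multiset.card t = j + 1 ∧ t.Nodup ∧ (∀ g ∈ t, g ∈ G) ∧ c ≤ t.sum ∧
        t.sum < c + m) →
      Set.InjOn (fun t : Multiset ℕ => t.sum) Tp → (∀ t ∈ Tp, ∀ g ∈ t, t.erase g ∈ A) →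
      (m : ℝ) ≤ (1 + σ) * Tp.card → (j + 1 + σ) * Tp.card ≤ (G.card : ℝ) * A.card := by
  induction J with
  | zero => exact ⟨1, one_pos, le_refl _, fun j h1 h2 => absurd (h1.trans h2) (by omega)⟩
  | succ J ih =>
    obtain ⟨σ₁, a0, a1, ha⟩ := ih
    obtain ⟨σ₂, b0, -, hb⟩ := surplus_sub (J + 1) (by omega)
    refine ⟨min σ₁ σ₂, lt_min a0 b0, (min_le_left _ _).trans a1, ?_⟩
    intro j h1 h2 m c G Tp A hm hG hTp hinj hA hyp
    have hp : (0 : ℝ) ≤ Tp.card := Nat.cast_nonneg _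
    have e1 := mul_le_mul_of_nonneg_right (min_le_left σ₁ σ₂) hp
    have e2 := mul_le_mul_of_nonneg_right (min_le_right σ₁ σ₂) hp
    rcases Nat.lt_or_ge j (J + 1) with h | h
    · have := ha j h1 (by omega) m c G Tp A hm hG hTp hinj hA (by linarith)
      linarith
    · have hj : j = J + 1 := le_antisymm h2 h
      subst hj
      have := hb m c G Tp A hm hG hTp hinj hA (by linarith)
      linarith

end Pool.Agent.Lib.MP_299528_co.Bd
end

-- part Pool.Agent.Lib.MP_299528_co.Bd.Level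
section

/-! One level carries almost all Apery elements. -/

set_option autoImplicit false

namespace Pool.Agent.Lib.MP_299528_co.Bd

open Finset

private theorem level_sum (Y : Ap) {J : ℕ} (h : Y.Len J) :
    Y.m = ∑ l ∈ range (J + 1), (Y.lev l).card := by
  rw [← Y.cardD]
  exact card_eq_sum_card_fiberwise (f := fun t : Multiset ℕ => Multiset.card t)
    fun t ht => mem_coe.2 (mem_range.2 (Nat.lt_succ_of_le (h t ht)))

private theorem level_split (Y : Ap) (j : ℕ) :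
    (Y.lev j).card ≤ (Y.top j).card + Y.low.card + Y.k ^ (j - 1) := by
  have h : Y.lev j ⊆ (Y.top j ∪ Y.low) ∪ (Y.lev j).filter (fun t => ¬ t.Nodup) := by
    intro t ht
    have h1 := mem_filter.1 ht
    by_cases h2 : t.Nodup
    · by_cases h3 : Y.c ≤ t.sum
      · exact mem_union_left _ (mem_union_left _ (mem_filter.2 ⟨h1.1, h1.2, h2, h3⟩))
      · exact mem_union_left _ (mem_union_right _ (mem_filter.2 ⟨h1.1, not_le.1 h3⟩))
    · exact mem_union_right _ (mem_filter.2 ⟨ht, h2⟩)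
  exact (card_le_card h).trans ((card_union_le _ _).trans
    (add_le_add (card_union_le _ _) (Y.card_dup_le j)))

private theorem level_pow {J i d k m w : ℕ} (hm : 0 < m) (hi : i + 1 ≤ J)
    (h1 : m ≤ (J + 1) * d) (h2 : d ^ i ≤ (i.factorial * w) ^ (i + 1)) (h3 : k * w ≤ 4 * J * m) :
    k ^ (i + 1) ≤ ((J + 1) * (4 * J * J.factorial)) ^ J * m := by
  have hf : i.factorial ≤ J.factorial := Nat.factorial_le (by omega)
  have hA : 0 < (J + 1) * (4 * J * J.factorial) :=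
    Nat.mul_pos J.succ_pos (Nat.mul_pos (by omega) J.factorial_pos)
  refine Nat.le_of_mul_le_mul_right (c := m ^ i) ?_ (pow_pos hm i)
  calc k ^ (i + 1) * m ^ i ≤ k ^ (i + 1) * ((J + 1) * d) ^ i := by gcongr
    _ = k ^ (i + 1) * ((J + 1) ^ i * d ^ i) := by rw [mul_pow]
    _ ≤ k ^ (i + 1) * ((J + 1) ^ (i + 1) * (i.factorial * w) ^ (i + 1)) := by
      have : (J + 1) ^ i ≤ (J + 1) ^ (i + 1) := Nat.pow_le_pow_right J.succ_pos i.le_succ
      gcongr
    _ = ((J + 1) * (i.factorial * (k * w))) ^ (i + 1) := by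
      rw [← mul_pow, ← mul_pow]
      congr 1
      ring
    _ ≤ ((J + 1) * (J.factorial * (4 * J * m))) ^ (i + 1) := by gcongr
    _ = ((J + 1) * (4 * J * J.factorial)) ^ (i + 1) * m * m ^ i := by
      rw [mul_assoc _ m, ← pow_succ', ← mul_pow]
      congr 1
      ring
    _ ≤ ((J + 1) * (4 * J * J.factorial)) ^ J * m * m ^ i := by
      have := Nat.pow_le_pow_right hA hi
      gcongr

private theorem level_up {J i p : ℕ} {B d k e : ℝ} (hB : 1 ≤ B) (hk : 1 ≤ k) (he : 0 < e)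
    (he1 : e ≤ 1) (hp : i + 1 ≤ p) (hJ : p + 1 ≤ J) (h1 : B ^ J ≤ e ^ J * k)
    (h2 : d ^ p ≤ (B * k ^ i) ^ (p + 1)) : d ≤ e * k ^ (i + 1) := by
  refine le_of_pow_le_pow_left₀ (n := p) (by omega) (by positivity) (h2.trans ?_)
  have h3 : B ^ (p + 1) ≤ e ^ p * k :=
    (pow_le_pow_right₀ hB hJ).trans (h1.trans (mul_le_mul_of_nonneg_right
      (pow_le_pow_of_le_one he.le he1 (by omega)) (by linarith)))
  have h4 : k ^ (i * (p + 1) + 1) ≤ k ^ ((i + 1) * p) := pow_le_pow_right₀ hk (by nlinarith)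
  calc (B * k ^ i) ^ (p + 1) = B ^ (p + 1) * k ^ (i * (p + 1)) := by rw [mul_pow, ← pow_mul]
    _ ≤ e ^ p * k * k ^ (i * (p + 1)) := by gcongr
    _ = e ^ p * k ^ (i * (p + 1) + 1) := by rw [pow_succ]; ring
    _ ≤ e ^ p * k ^ ((i + 1) * p) := by gcongr
    _ = (e * k ^ (i + 1)) ^ p := by rw [mul_pow, ← pow_mul]

theorem level (J : ℕ) : ∃ C : ℝ, 0 < C ∧ ∀ ε : ℝ, 0 < ε → ∃ k₁ : ℕ, ∀ Y : Ap, Y.Len J →
    k₁ ≤ Y.k → J + 1 < Y.m → Y.k * Y.low.card ≤ 4 * J * Y.m →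
    Y.m ≤ (J + 1) * Y.k ∨ ∃ j, 2 ≤ j ∧ j ≤ J ∧ (Y.k : ℝ) ^ j ≤ C * Y.m ∧
      (Y.low.card : ℝ) ≤ C * (Y.k : ℝ) ^ (j - 1) ∧
      (Y.m : ℝ) ≤ (Y.top j).card + ε * (Y.k : ℝ) ^ j := by
  obtain ⟨A, hA⟩ : ∃ A : ℕ, A = ((J + 1) * (4 * J * J.factorial)) ^ J := ⟨_, rfl⟩
  obtain ⟨C0, hC0⟩ : ∃ C0 : ℕ, C0 = 4 * J * (J + 1) := ⟨_, rfl⟩
  refine ⟨(A : ℝ) + C0 + 1, by positivity, fun ε hε => ?_⟩
  obtain ⟨e, he⟩ : ∃ e : ℝ, e = min 1 (ε / (2 * (J + 1))) := ⟨_, rfl⟩
  have he0 : 0 < e := by rw [he]; positivity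
  have he1 : e ≤ 1 := by rw [he]; exact min_le_left _ _
  have he2 : (J + 1) * e ≤ ε / 2 := by
    have h1 : e ≤ ε / (2 * (J + 1)) := by rw [he]; exact min_le_right _ _
    rw [le_div_iff₀ (by positivity)] at h1
    linarith
  refine ⟨⌈((J.factorial : ℝ) * C0) ^ J / e ^ J⌉₊ + ⌈2 * ((C0 : ℝ) + J + 2) / ε⌉₊ + 1,
    fun Y hL hk hm hw => ?_⟩
  have hk1 : 1 ≤ Y.k := by omega
  have hk1' : (1 : ℝ) ≤ Y.k := by exact_mod_cast hk1
  have hk2 : ((J.factorial : ℝ) * C0) ^ J ≤ e ^ J * Y.k := by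
    have h1 : ((J.factorial : ℝ) * C0) ^ J / e ^ J ≤ Y.k := Nat.ceil_le.1 (by omega)
    rwa [div_le_iff₀ (by positivity), mul_comm (Y.k : ℝ)] at h1
  have hk3 : (C0 : ℝ) + J + 2 ≤ ε / 2 * Y.k := by
    have h1 : 2 * ((C0 : ℝ) + J + 2) / ε ≤ Y.k := Nat.ceil_le.1 (by omega)
    rw [div_le_iff₀ hε] at h1
    linarith
  obtain ⟨j, hj, hmax⟩ := exists_max_image (range (J + 1)) (fun l => (Y.lev l).card)
    ⟨0, mem_range.2 J.succ_pos⟩
  have hjJ : j ≤ J := Nat.lt_succ_iff.1 (mem_range.1 hj)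
  have hsum := level_sum Y hL
  have hmd : Y.m ≤ (J + 1) * (Y.lev j).card := by
    rw [hsum]
    have h1 := sum_le_card_nsmul _ _ _ hmax
    rwa [card_range, smul_eq_mul] at h1
  have hdj := Y.card_lev_le j
  have hmk : Y.m ≤ (J + 1) * Y.k ^ j := hmd.trans (Nat.mul_le_mul_left _ hdj)
  rcases j with _ | i
  · rw [pow_zero, mul_one] at hmk
    omega
  rcases Nat.eq_zero_or_pos i with rfl | hi
  · left
    simpa using hmk
  right
  have h1 := level_pow Y.hm hjJ hmd (Y.shadow i hi) hw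
  rw [← hA] at h1
  have h2 : Y.low.card ≤ C0 * Y.k ^ i := by
    refine Nat.le_of_mul_le_mul_left (hw.trans ?_) hk1
    calc 4 * J * Y.m ≤ 4 * J * ((J + 1) * Y.k ^ (i + 1)) := Nat.mul_le_mul_left _ hmk
      _ = Y.k * (C0 * Y.k ^ i) := by rw [hC0]; ring
  have h1' : (Y.k : ℝ) ^ (i + 1) ≤ A * Y.m := by exact_mod_cast h1
  have h2' : (Y.low.card : ℝ) ≤ C0 * (Y.k : ℝ) ^ i := by exact_mod_cast h2
  have hp : (0 : ℝ) ≤ (Y.k : ℝ) ^ i := by positivity
  have hA0 : (0 : ℝ) ≤ A := Nat.cast_nonneg _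
  have hC : (0 : ℝ) ≤ C0 := Nat.cast_nonneg _
  have hm0 : (0 : ℝ) ≤ Y.m := Nat.cast_nonneg _
  refine ⟨i + 1, by omega, hjJ, h1'.trans (by nlinarith), ?_, ?_⟩
  · rw [Nat.add_sub_cancel]
    exact h2'.trans (by nlinarith)
  have hB : (1 : ℝ) ≤ (J.factorial : ℝ) * C0 := by
    have h3 : 1 ≤ J.factorial * C0 := by
      refine Nat.mul_pos J.factorial_pos ?_
      rw [hC0]
      exact Nat.mul_pos (by omega) J.succ_pos
    exact_mod_cast h3
  have h3 : ∀ l ∈ (range (J + 1)).erase (i + 1),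
      ((Y.lev l).card : ℝ) ≤ (Y.k : ℝ) ^ i + e * (Y.k : ℝ) ^ (i + 1) := by
    intro l hl
    obtain ⟨hl1, hl2⟩ := mem_erase.1 hl
    have hl3 : l ≤ J := Nat.lt_succ_iff.1 (mem_range.1 hl2)
    rcases Nat.lt_or_ge l (i + 1) with h | h
    · have h4 : (Y.lev l).card ≤ Y.k ^ i :=
        (Y.card_lev_le l).trans (Nat.pow_le_pow_right hk1 (by omega))
      have h5 : ((Y.lev l).card : ℝ) ≤ (Y.k : ℝ) ^ i := by exact_mod_cast h4
      have h6 : 0 ≤ e * (Y.k : ℝ) ^ (i + 1) := by positivity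
      linarith
    · obtain ⟨p, rfl⟩ : ∃ p, l = p + 1 := ⟨l - 1, by omega⟩
      have h4 : (Y.lev (p + 1)).card ^ p ≤ (J.factorial * C0 * Y.k ^ i) ^ (p + 1) := by
        refine (Y.shadow p (by omega)).trans (Nat.pow_le_pow_left ?_ _)
        rw [mul_assoc]
        exact Nat.mul_le_mul (Nat.factorial_le (by omega)) h2
      have h5 := level_up (d := ((Y.lev (p + 1)).card : ℝ)) (i := i) (p := p) hB hk1' he0 he1
        (by omega) hl3 hk2 (by exact_mod_cast h4)
      linarith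
  have h4 := sum_le_card_nsmul _ _ _ h3
  rw [card_erase_of_mem hj, card_range, Nat.add_sub_cancel, nsmul_eq_mul] at h4
  have h5 : (Y.m : ℝ) = (Y.lev (i + 1)).card +
      ∑ l ∈ (range (J + 1)).erase (i + 1), ((Y.lev l).card : ℝ) := by
    rw [hsum, ← add_sum_erase _ _ hj]
    push_cast
    rfl
  have h6 : ((Y.lev (i + 1)).card : ℝ) ≤ (Y.top (i + 1)).card + Y.low.card + (Y.k : ℝ) ^ i := by
    have h7 := level_split Y (i + 1)
    rw [Nat.add_sub_cancel] at h7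
    exact_mod_cast h7
  have h7 := mul_le_mul_of_nonneg_right hk3 hp
  have h8 := mul_le_mul_of_nonneg_right he2 (show (0 : ℝ) ≤ (Y.k : ℝ) ^ (i + 1) by positivity)
  have h9 : 0 ≤ e * (Y.k : ℝ) ^ (i + 1) := by positivity
  have h10 : ε / 2 * Y.k * (Y.k : ℝ) ^ i = ε / 2 * (Y.k : ℝ) ^ (i + 1) := by ring
  nlinarith

end Pool.Agent.Lib.MP_299528_co.Bd
end

-- part Pool.Agent.Lib.MP_299528_co.Bd.Dom
section

/-! Almost all top tuples dominate one reference tuple. -/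

set_option autoImplicit false

namespace Pool.Agent.Lib.MP_299528_co.Bd

open Finset

private lemma win_eq {m c a b : ℕ} (ha : c ≤ a) (ha' : a < c + m) (hb : c ≤ b) (hb' : b < c + m)
    (h : (a : ZMod m) = (b : ZMod m)) : a = b := by
  have h1 : a ≡ b [MOD m] := (ZMod.natCast_eq_natCast_iff a b m).1 h
  rcases le_total a b with hab | hab
  · have h2 : m ∣ b - a := (Nat.modEq_iff_dvd' hab).1 h1
    have h3 : b - a = 0 := Nat.eq_zero_of_dvd_of_lt h2 (by omega)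
    omega
  · have h2 : m ∣ a - b := (Nat.modEq_iff_dvd' hab).1 h1.symm
    have h3 : a - b = 0 := Nat.eq_zero_of_dvd_of_lt h2 (by omega)
    omega

private lemma exists_avoid {β : Type*} [DecidableEq β] {j : ℕ} (hj : 1 ≤ j) (T : Finset β)
    (B : Fin j → Finset β) (x : ℝ) (hB : ∀ i, ((B i).card : ℝ) < x) (hT : j * x ≤ T.card) :
    ∃ v ∈ T, ∀ i, v ∉ B i := by
  by_contra hcon
  push Not at hcon
  have hsub : T ⊆ univ.biUnion B := by
    intro v hv
    obtain ⟨i, hi⟩ := hcon v hv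
    exact mem_biUnion.2 ⟨i, mem_univ _, hi⟩
  have h1 : T.card ≤ ∑ i, (B i).card := (card_le_card hsub).trans card_biUnion_le
  have h2 : (T.card : ℝ) ≤ ∑ i, ((B i).card : ℝ) := by exact_mod_cast h1
  have : Nonempty (Fin j) := ⟨⟨0, hj⟩⟩
  have h3 : ∑ i, ((B i).card : ℝ) < ∑ _i : Fin j, x :=
    sum_lt_sum_of_nonempty univ_nonempty (fun i _ => hB i)
  simp only [sum_const, card_univ, Fintype.card_fin, nsmul_eq_mul] at h3
  linarith

private lemma card_le_good {β : Type*} [DecidableEq β] {j : ℕ} (E Gd : Finset β)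
    (B : Fin j → Finset β) (x : ℝ) (hB : ∀ i, ((B i).card : ℝ) < x)
    (hG : ∀ v ∈ E, (∀ i, v ∉ B i) → v ∈ Gd) : (E.card : ℝ) ≤ Gd.card + j * x := by
  have hsub : E ⊆ Gd ∪ univ.biUnion B := by
    intro v hv
    by_cases h : ∀ i, v ∉ B i
    · exact mem_union_left _ (hG v hv h)
    · push Not at h
      obtain ⟨i, hi⟩ := h
      exact mem_union_right _ (mem_biUnion.2 ⟨i, mem_univ _, hi⟩)
  have h1 : E.card ≤ Gd.card + ∑ i, (B i).card :=
    (card_le_card hsub).trans ((card_union_le _ _).trans (Nat.add_le_add_left card_biUnion_le _))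
  have h2 : (E.card : ℝ) ≤ Gd.card + ∑ i, ((B i).card : ℝ) := by exact_mod_cast h1
  have h3 : ∑ i, ((B i).card : ℝ) ≤ ∑ _i : Fin j, x := sum_le_sum (fun i _ => (hB i).le)
  simp only [sum_const, card_univ, Fintype.card_fin, nsmul_eq_mul] at h3
  linarith

theorem dom (j : ℕ) (hj : 1 ≤ j) (C ε' : ℝ) (hC : 0 < C) (hε' : 0 < ε') :
    ∃ ε : ℝ, 0 < ε ∧ ∃ k₀ : ℕ, ∀ (m c : ℕ) (G R : Finset ℕ) (E : Finset (Fin j → ℕ)),
      0 < m → k₀ ≤ G.card → (G.card : ℝ) ^ j ≤ C * m →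
      (R.card : ℝ) ≤ C * (G.card : ℝ) ^ (j - 1) →
      (∀ v ∈ E, Monotone v ∧ (∀ h, v h ∈ G) ∧ c ≤ ∑ h, v h ∧ ∑ h, v h < c + m) →
      Set.InjOn (fun v : Fin j → ℕ => ∑ h, v h) E →
      (m : ℝ) ≤ E.card + ε * (G.card : ℝ) ^ j →
      (∀ v ∈ E, ∀ l, ∀ g ∈ G, (∑ h ∈ univ.erase l, v h) + g < c →
        ((∑ h ∈ univ.erase l, v h) + g) % m ∈ R) →
      -((m : ℝ) / 2) - ε' * m ≤
        ∑ v ∈ E, ∑ h, ((((c + m - 1 - (∑ x, v x) + v h) / m : ℕ) : ℝ) - (v h : ℝ) / m) := by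
  classical
  have hjR : (1 : ℝ) ≤ j := by exact_mod_cast hj
  -- constants
  obtain ⟨Q, hQ1, hQ2⟩ : ∃ Q : ℕ, 1 ≤ Q ∧ (2 * j : ℝ) ≤ ε' * Q := by
    refine ⟨⌈2 * j / ε'⌉₊ + 1, by omega, ?_⟩
    have h1 : (2 * j / ε' : ℝ) ≤ ⌈2 * j / ε'⌉₊ := Nat.le_ceil _
    have h2 : (2 * j : ℝ) = ε' * (2 * j / ε') := by field_simp
    rw [h2]
    apply mul_le_mul_of_nonneg_left _ hε'.le
    push_cast
    rw [← h2]
    linarith
  have hQR : (1 : ℝ) ≤ Q := by exact_mod_cast hQ1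
  obtain ⟨δ, hδ0, hδ1, hδ2⟩ : ∃ δ : ℝ, 0 < δ ∧ δ * (2 * Q * C) ≤ 1 ∧
      δ * ((2 * j + 1) * C) ≤ ε' / 2 := by
    have p1 : (0 : ℝ) < 2 * Q * C := by positivity
    have p2 : (0 : ℝ) < (2 * j + 1) * C := by positivity
    refine ⟨min (1 / (2 * Q * C)) (ε' / 2 / ((2 * j + 1) * C)), lt_min (by positivity) (by positivity),
      ?_, ?_⟩
    · rw [← le_div_iff₀ p1]; exact min_le_left _ _
    · rw [← le_div_iff₀ p2]; exact min_le_right _ _
  set γ : ℝ := δ / (2 * j) with hγdef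
  have hγ : 0 < γ := by positivity
  have hjγ : j * γ = δ / 2 := by rw [hγdef]; field_simp
  obtain ⟨k₁, hk₁⟩ := exchange j γ C hγ hC
  refine ⟨δ / 2, by positivity, max k₁ (⌈Q * C⌉₊ + 1), ?_⟩
  intro m c G R E hm hk hCm hR hE hinj hmE hex
  have hk1 : k₁ ≤ G.card := (le_max_left _ _).trans hk
  have hk2 : ⌈Q * C⌉₊ + 1 ≤ G.card := (le_max_right _ _).trans hk
  have hk3 : (1 : ℝ) ≤ G.card := by exact_mod_cast (show 1 ≤ G.card by omega)
  have hk4 : (Q * C : ℝ) ≤ G.card := by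
    have h1 : (Q * C : ℝ) ≤ ⌈Q * C⌉₊ := Nat.le_ceil _
    have h2 : ((⌈Q * C⌉₊ : ℕ) : ℝ) ≤ G.card := by exact_mod_cast (show ⌈Q * C⌉₊ ≤ G.card by omega)
    linarith
  set K : ℝ := (G.card : ℝ) ^ j with hK
  have hKk : (G.card : ℝ) ≤ K := le_self_pow₀ hk3 (by omega)
  have hK0 : 0 < K := by linarith
  have hQm : Q ≤ m := by
    have h1 : C * Q ≤ C * m := by linarith
    have h2 : (Q : ℝ) ≤ m := le_of_mul_le_mul_left h1 hC
    exact_mod_cast h2
  set w : ℕ := m / Q with hw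
  have hw1 : 1 ≤ w := (Nat.le_div_iff_mul_le (by omega)).2 (by omega)
  have hw2 : Q * w ≤ m := Nat.mul_div_le m Q
  have hw3 : m ≤ 2 * Q * w := by
    have h1 : m < Q * (w + 1) := by
      rw [hw]; exact Nat.lt_mul_div_succ m (by omega)
    nlinarith
  have hwm : w ≤ m := Nat.div_le_self _ _
  have hw2R : (Q : ℝ) * w ≤ m := by exact_mod_cast hw2
  have hw3R : (m : ℝ) ≤ 2 * Q * w := by exact_mod_cast hw3
  have hwK : δ * K ≤ w := by
    have h1 : K ≤ C * (2 * Q * w) := hCm.trans (mul_le_mul_of_nonneg_left hw3R hC.le)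
    have h2 : δ * K ≤ δ * (C * (2 * Q * w)) := mul_le_mul_of_nonneg_left h1 hδ0.le
    have h3 : δ * (C * (2 * Q * w)) = δ * (2 * Q * C) * w := by ring
    have h4 : δ * (2 * Q * C) * w ≤ 1 * w := mul_le_mul_of_nonneg_right hδ1 (Nat.cast_nonneg _)
    linarith
  -- the low part of the window
  set T : Finset (Fin j → ℕ) := E.filter (fun v => ∑ h, v h < c + w) with hT
  have hTcard : j * (γ * K) ≤ (T.card : ℝ) := by
    have h1 : (E.filter (fun v => ¬ ∑ h, v h < c + w)).card ≤ (Ico (c + w) (c + m)).card := by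
      apply card_le_card_of_injOn (fun v : Fin j → ℕ => ∑ h, v h)
      · intro v hv
        have hv' := mem_filter.1 (mem_coe.1 hv)
        have h2 := (hE v hv'.1).2.2.2
        have h3 := hv'.2
        exact mem_coe.2 (mem_Ico.2 ⟨not_lt.1 h3, h2⟩)
      · exact hinj.mono (coe_subset.2 (filter_subset _ _))
    rw [Nat.card_Ico] at h1
    have h2 := card_filter_add_card_filter_not (s := E) (fun v => ∑ h, v h < c + w)
    have h3 : E.card + w ≤ T.card + m := by rw [hT]; omega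
    have h4 : (E.card : ℝ) + w ≤ T.card + m := by exact_mod_cast h3
    have h5 : j * (γ * K) = δ / 2 * K := by rw [← mul_assoc, hjγ]
    linarith
  have hγK : 0 < γ * K := mul_pos hγ hK0
  -- thresholds
  set z : Fin j → ℕ := fun i =>
    Nat.findGreatest (fun t => γ * K ≤ ((T.filter (fun v => t ≤ v i)).card : ℝ)) (c + m) with hz
  have hz1 : ∀ i, γ * K ≤ ((T.filter (fun v => z i ≤ v i)).card : ℝ) := by
    intro i
    apply Nat.findGreatest_spec
      (P := fun t => γ * K ≤ ((T.filter (fun v => t ≤ v i)).card : ℝ)) (Nat.zero_le (c + m))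
    have h1 : T.filter (fun v => 0 ≤ v i) = T := filter_true_of_mem (fun v _ => Nat.zero_le _)
    rw [h1]
    nlinarith
  have hz2 : ∀ i, ((T.filter (fun v => z i + 1 ≤ v i)).card : ℝ) < γ * K := by
    intro i
    by_cases h : z i + 1 ≤ c + m
    · have h1 := Nat.findGreatest_is_greatest
        (P := fun t => γ * K ≤ ((T.filter (fun v => t ≤ v i)).card : ℝ)) (k := z i + 1)
        (n := c + m) (Nat.lt_succ_self _) h
      exact not_le.1 h1
    · have h1 : T.filter (fun v => z i + 1 ≤ v i) = ∅ := by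
        apply filter_false_of_mem
        intro v hv
        have h2 := (hE v (mem_filter.1 hv).1).2.2.2
        have h3 : v i ≤ ∑ h, v h := single_le_sum (f := v) (fun _ _ => Nat.zero_le _) (mem_univ i)
        omega
      rw [h1]; simpa using hγK
  -- bad sets are small
  have hinj' : Set.InjOn (fun b : Fin j → ℕ => ∑ h, ((b h : ℕ) : ZMod m)) E := by
    intro b hb b' hb' h
    have h1 : ((∑ h, b h : ℕ) : ZMod m) = ((∑ h, b' h : ℕ) : ZMod m) := by
      push_cast; exact h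
    have e1 := (hE b (mem_coe.1 hb)).2.2
    have e2 := (hE b' (mem_coe.1 hb')).2.2
    exact hinj hb hb' (win_eq e1.1 e1.2 e2.1 e2.2 h1)
  have hbad : ∀ i, ((E.filter (fun v => v i + w ≤ z i)).card : ℝ) < γ * K := by
    intro i
    by_contra hcon
    have hcon' := not_lt.1 hcon
    refine hk₁ (ZMod m) (Fin j → ℕ) G.card (G.image (fun g : ℕ => (g : ZMod m)))
      (R.image (fun g : ℕ => (g : ZMod m))) (T.filter (fun v => z i ≤ v i))
      (E.filter (fun v => v i + w ≤ z i)) (fun b h => ((b h : ℕ) : ZMod m))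
      (fun b h => ((b h : ℕ) : ZMod m)) i hk1 card_image_le ?_ ?_ ?_ ?_ (hz1 i) hcon' ?_ ?_
    · intro b hb h
      exact mem_image_of_mem _ ((hE b (mem_filter.1 (mem_filter.1 hb).1).1).2.1 h)
    · intro b hb h
      exact mem_image_of_mem _ ((hE b (mem_filter.1 hb).1).2.1 h)
    · exact hinj'.mono (coe_subset.2 ((filter_subset _ _).trans (filter_subset _ _)))
    · exact hinj'.mono (coe_subset.2 (filter_subset _ _))
    · have h1 : ((R.image (fun g : ℕ => (g : ZMod m))).card : ℝ) ≤ R.card := by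
        exact_mod_cast card_image_le
      exact h1.trans hR
    · intro b hb b' hb' l u hl hu
      have hb1 := mem_filter.1 hb
      have hb2 := mem_filter.1 hb1.1
      have hb3 := mem_filter.1 hb'
      have m1 : b i ≤ b l := (hE b hb2.1).1 hl
      have m2 : b' u ≤ b' i := (hE b' hb3.1).1 hu
      have s1 : ∑ h ∈ univ.erase l, b h + b l = ∑ h, b h := sum_erase_add _ _ (mem_univ l)
      have l1 := hb1.2
      have l2 := hb2.2
      have l3 := hb3.2
      have h1 := hex b hb2.1 l (b' u) ((hE b' hb3.1).2.1 u) (by omega)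
      refine mem_image.2 ⟨_, h1, ?_⟩
      rw [ZMod.natCast_mod]
      push_cast
      rfl
  -- the reference tuple
  set ζ : Fin j → ℕ := fun i => z i + 1 - w with hζ
  set Gd : Finset (Fin j → ℕ) := E.filter (fun v => ∀ h, ζ h ≤ v h) with hGd
  have hgood : ∀ v ∈ E, (∀ i, v ∉ E.filter (fun v => v i + w ≤ z i)) → v ∈ Gd := by
    intro v hv h
    refine mem_filter.2 ⟨hv, fun i => ?_⟩
    have h1 : ¬ v i + w ≤ z i := fun h2 => h i (mem_filter.2 ⟨hv, h2⟩)
    show z i + 1 - w ≤ v i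
    omega
  have h1 : c ≤ (∑ h, ζ h) + j * w := by
    obtain ⟨v, hv, hv'⟩ := exists_avoid hj T (fun i => T.filter (fun v => z i + 1 ≤ v i))
      (γ * K) hz2 hTcard
    have a1 := (hE v (mem_filter.1 hv).1).2.2.1
    have a2 : ∑ h, v h ≤ ∑ h, (ζ h + w) := by
      apply sum_le_sum
      intro i _
      have a3 : ¬ z i + 1 ≤ v i := fun h2 => hv' i (mem_filter.2 ⟨hv, h2⟩)
      show v i ≤ z i + 1 - w + w
      omega
    rw [sum_add_distrib] at a2
    simp only [sum_const, card_univ, Fintype.card_fin, smul_eq_mul] at a2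
    omega
  have h2 : ∑ h, ζ h ≤ c + m := by
    have hTE : (T.card : ℝ) ≤ E.card := by exact_mod_cast card_le_card (filter_subset _ _)
    obtain ⟨v, hv, hv'⟩ := exists_avoid hj E (fun i => E.filter (fun v => v i + w ≤ z i))
      (γ * K) hbad (hTcard.trans hTE)
    have a1 := (mem_filter.1 (hgood v hv hv')).2
    have a2 : ∑ h, ζ h ≤ ∑ h, v h := sum_le_sum (fun i _ => a1 i)
    have a3 := (hE v hv).2.2.2
    omega
  have h3 : m ≤ Gd.card + (m - Gd.card) := by omega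
  have main := dom_avg j m c (j * w) (m - Gd.card) hm E ζ (fun v hv => (hE v hv).2.2) hinj h1 h2 h3
  have hμ : ((m - Gd.card : ℕ) : ℝ) ≤ δ * K := by
    have a1 := card_le_good E Gd (fun i => E.filter (fun v => v i + w ≤ z i)) (γ * K) hbad hgood
    have a2 : j * (γ * K) = δ / 2 * K := by rw [← mul_assoc, hjγ]
    rcases le_total m Gd.card with h | h
    · rw [Nat.sub_eq_zero_of_le h]; simp only [Nat.cast_zero]; positivity
    · rw [Nat.cast_sub h]; linarith
  have b1 : ((j * w : ℕ) : ℝ) ≤ ε' / 2 * m := by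
    push_cast
    have a1 : (2 * j : ℝ) * w ≤ ε' * Q * w := mul_le_mul_of_nonneg_right hQ2 (Nat.cast_nonneg _)
    have a2 : ε' * (Q * w) ≤ ε' * m := mul_le_mul_of_nonneg_left hw2R hε'.le
    nlinarith
  have b2 : (2 * j + 1 : ℝ) * ((m - Gd.card : ℕ) : ℝ) ≤ ε' / 2 * m := by
    have p : (0 : ℝ) ≤ 2 * j + 1 := by positivity
    have a1 : (2 * j + 1 : ℝ) * ((m - Gd.card : ℕ) : ℝ) ≤ (2 * j + 1) * (δ * K) :=
      mul_le_mul_of_nonneg_left hμ p
    have a2 : δ * K ≤ δ * (C * m) := mul_le_mul_of_nonneg_left hCm hδ0.le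
    have a3 : (2 * j + 1 : ℝ) * (δ * K) ≤ (2 * j + 1) * (δ * (C * m)) :=
      mul_le_mul_of_nonneg_left a2 p
    have a4 : (2 * j + 1 : ℝ) * (δ * (C * m)) = δ * ((2 * j + 1) * C) * m := by ring
    have a5 : δ * ((2 * j + 1) * C) * m ≤ ε' / 2 * m :=
      mul_le_mul_of_nonneg_right hδ2 (Nat.cast_nonneg _)
    linarith
  linarith

end Pool.Agent.Lib.MP_299528_co.Bd
end

-- part Pool.Agent.Lib.MP_299528_co.Bd.Main
section

/-! Wilf inequality for Apery data of bounded length and large multiplicity. -/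

set_option autoImplicit false

namespace Pool.Agent.Lib.MP_299528_co.Bd

open Finset

theorem closure (Y : Ap) {j : ℕ} (v : Fin j → ℕ) (hv : ∀ h, v h ∈ Y.G) (l : Fin j) (g : ℕ)
    (hg : g ∈ Y.G) (h : (∑ h ∈ univ.erase l, v h) + g < Y.c) :
    ((∑ h ∈ univ.erase l, v h) + g) % Y.m ∈ Y.low.image (fun t => t.sum % Y.m) := by
  obtain ⟨t, ht, h1, h2⟩ := Y.least (g ::ₘ (univ.erase l).val.map v) (by
    intro x hx
    rcases Multiset.mem_cons.mp hx with rfl | hx
    · exact hg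
    · obtain ⟨y, -, rfl⟩ := Multiset.mem_map.mp hx
      exact hv y)
  have e : (g ::ₘ (univ.erase l).val.map v).sum = (∑ h ∈ univ.erase l, v h) + g := by
    rw [Multiset.sum_cons, add_comm]
    rfl
  rw [e] at h1 h2
  exact mem_image.mpr ⟨t, mem_filter.mpr ⟨ht, by omega⟩, h2⟩

theorem one_j (J j : ℕ) (hj : 2 ≤ j) (C : ℝ) (hC : 0 < C) :
    ∃ ε : ℝ, 0 < ε ∧ ∃ k₀ : ℕ, ∀ Y : Ap, Y.Len J → k₀ ≤ Y.k → (Y.k : ℝ) ^ j ≤ C * Y.m →
      (Y.low.card : ℝ) ≤ C * (Y.k : ℝ) ^ (j - 1) →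
      (Y.m : ℝ) ≤ (Y.top j).card + ε * (Y.k : ℝ) ^ j → Y.c ≤ (Y.k + 1) * Y.n := by
  obtain ⟨i, rfl⟩ : ∃ i, j = i + 1 := ⟨j - 1, by omega⟩
  obtain ⟨σ, hσ, hσ1, hs⟩ := surplus i (by omega)
  obtain ⟨ε₁, hε₁, k₁, hd⟩ := dom (i + 1) (by omega) C (σ / 8) hC (by positivity)
  have hf : (0 : ℝ) < (i + 1).factorial := by exact_mod_cast Nat.factorial_pos _
  have hJ0 : (0 : ℝ) ≤ J := Nat.cast_nonneg _
  set ε : ℝ := min ε₁ (min (σ / (i + 1).factorial) (σ / (16 * (J + 1) * C))) with hε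
  have hε0 : 0 < ε := lt_min hε₁ (lt_min (by positivity) (by positivity))
  have e1 : ε ≤ ε₁ := min_le_left _ _
  have e2 : (i + 1).factorial * ε ≤ σ := by
    have : ε ≤ σ / (i + 1).factorial := (min_le_right _ _).trans (min_le_left _ _)
    rw [le_div_iff₀ hf] at this
    linarith
  have e3 : 16 * (J + 1) * (C * ε) ≤ σ := by
    have : ε ≤ σ / (16 * (J + 1) * C) := (min_le_right _ _).trans (min_le_right _ _)
    rw [le_div_iff₀ (by positivity)] at this
    linarith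
  obtain ⟨k₂, hk₂⟩ := exists_nat_ge (8 * J * C ^ 2 / σ + 2 * C + 1)
  refine ⟨ε, hε0, max k₁ k₂, fun Y hJ hk h1 h2 h3 => ?_⟩
  by_contra hlt
  push Not at hlt
  have hk2 : 8 * J * C ^ 2 / σ + 2 * C + 1 ≤ (Y.k : ℝ) :=
    hk₂.trans (by exact_mod_cast (le_max_right _ _).trans hk)
  have hq : 0 ≤ 8 * J * C ^ 2 / σ := by positivity
  have hk1 : (1 : ℝ) ≤ Y.k := by linarith
  have hK : (0 : ℝ) ≤ (Y.k : ℝ) ^ (i + 1) := by positivity
  have hm2 : (2 : ℝ) ≤ Y.m := by
    have : (Y.k : ℝ) ≤ (Y.k : ℝ) ^ (i + 1) := le_self_pow₀ hk1 (by omega)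
    have : C * 2 ≤ C * Y.m := by linarith
    exact le_of_mul_le_mul_left this hC
  obtain ⟨E, hE1, hE2, hE3, hE4⟩ := Y.exists_tup (i + 1)
  have d1 := hd Y.m Y.c Y.G (Y.low.image (fun t => t.sum % Y.m)) E Y.hm
    ((le_max_left _ _).trans hk) h1
    (le_trans (by exact_mod_cast card_image_le) h2) hE2 hE3
    (by
      rw [hE1]
      have := mul_le_mul_of_nonneg_right e1 hK
      exact h3.trans (by show _ ≤ _ + ε₁ * (Y.k : ℝ) ^ (i + 1); linarith))
    (fun v hv l g hg h => closure Y v (hE2 v hv).2.1 l g hg h)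
  rw [hE4 (fun x g => (((Y.c + Y.m - 1 - x + g) / Y.m : ℕ) : ℝ) - (g : ℝ) / Y.m)] at d1
  have d2 := Y.master J hJ (Y.top (i + 1)) (fun t ht => by
    have := mem_filter.mp ht
    exact ⟨this.1, this.2.2.1, this.2.2.2⟩)
  have d3 : ((Y.k * (Y.low ∩ Y.lev i).card + J * (Y.top (i + 1)).card : ℕ) : ℝ) ≤
      ((Y.unused.card + J * Y.low.card + (i + 1) * (Y.top (i + 1)).card + J * Y.m : ℕ) : ℝ) := by
    exact_mod_cast Y.unused_ge_top J hJ i
  push_cast at d3
  have d4 := hs Y (by exact_mod_cast hm2) (by exact_mod_cast hk1) (by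
    have a1 := mul_le_mul_of_nonneg_left h3 hf.le
    have a2 := mul_le_mul_of_nonneg_right e2 hK
    linarith)
  have d5 : ((Y.k : ℝ) + 1) * Y.n + 1 ≤ Y.c := by exact_mod_cast hlt
  set T : ℝ := ((Y.top (i + 1)).card : ℝ)
  set m : ℝ := (Y.m : ℝ)
  have d6 : m - T ≤ C * ε * m := by
    have := mul_le_mul_of_nonneg_left h1 hε0.le
    linarith
  have d7 : J * (Y.low.card : ℝ) ≤ σ / 8 * m := by
    have a1 : (Y.low.card : ℝ) * Y.k ≤ C ^ 2 * m := by
      have b1 := mul_le_mul_of_nonneg_right h2 (by linarith : (0 : ℝ) ≤ Y.k)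
      rw [Nat.add_sub_cancel, mul_assoc, ← pow_succ] at b1
      have b2 := mul_le_mul_of_nonneg_left h1 hC.le
      linarith
    have a2 : 8 * J * C ^ 2 ≤ Y.k * σ := by
      rw [← div_le_iff₀ hσ]
      linarith
    have a3 : (J * (Y.low.card : ℝ)) * Y.k ≤ (σ / 8 * m) * Y.k := by
      have b1 := mul_le_mul_of_nonneg_left a1 hJ0
      have b2 := mul_le_mul_of_nonneg_right a2 (by linarith : (0 : ℝ) ≤ m)
      linarith
    exact le_of_mul_le_mul_right a3 (by linarith)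
  have hce : 0 ≤ C * ε := by positivity
  have d8 : J * (m - T) ≤ σ / 16 * m := by
    have a1 := mul_le_mul_of_nonneg_left d6 hJ0
    have a2 : J * (C * ε) ≤ σ / 16 := by linarith
    have a3 := mul_le_mul_of_nonneg_right a2 (by linarith : (0 : ℝ) ≤ m)
    linarith
  have d9 : m / 2 ≤ T := by
    have a1 := mul_nonneg hJ0 hce
    have a2 : C * ε ≤ 1 / 2 := by linarith
    have a3 := mul_le_mul_of_nonneg_right a2 (by linarith : (0 : ℝ) ≤ m)
    linarith
  have d10 := mul_le_mul_of_nonneg_left d9 hσ.le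
  have d11 : 0 < σ * m := by positivity
  linarith

theorem ap_wilf (J : ℕ) : ∃ m₀ : ℕ, ∀ Y : Ap, Y.Len J → m₀ ≤ Y.m → Y.c ≤ (Y.k + 1) * Y.n := by
  obtain ⟨C, hC, hl⟩ := level J
  have h1 : ∀ n : ℕ, ∃ ε : ℝ, 0 < ε ∧ ∃ k₀ : ℕ, ∀ j, 2 ≤ j → j ≤ n → ∀ Y : Ap, Y.Len J →
      k₀ ≤ Y.k → (Y.k : ℝ) ^ j ≤ C * Y.m → (Y.low.card : ℝ) ≤ C * (Y.k : ℝ) ^ (j - 1) →
      (Y.m : ℝ) ≤ (Y.top j).card + ε * (Y.k : ℝ) ^ j → Y.c ≤ (Y.k + 1) * Y.n := by
    intro n
    induction n with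
    | zero => exact ⟨1, one_pos, 0, fun j h1 h2 => by omega⟩
    | succ n ih =>
      obtain ⟨ε, hε, k₀, h⟩ := ih
      obtain ⟨ε', hε', k₀', h'⟩ := one_j J (max 2 (n + 1)) (le_max_left _ _) C hC
      refine ⟨min ε ε', lt_min hε hε', max k₀ k₀', fun j j2 jn Y a1 a2 a3 a4 a5 => ?_⟩
      have hK : (0 : ℝ) ≤ (Y.k : ℝ) ^ j := by positivity
      by_cases hj : j ≤ n
      · refine h j j2 hj Y a1 ((le_max_left _ _).trans a2) a3 a4 (a5.trans ?_)
        have := mul_le_mul_of_nonneg_right (min_le_left ε ε') hK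
        linarith
      · have e : max 2 (n + 1) = j := by omega
        rw [e] at h'
        refine h' Y a1 ((le_max_right _ _).trans a2) a3 a4 (a5.trans ?_)
        have := mul_le_mul_of_nonneg_right (min_le_right ε ε') hK
        linarith
  obtain ⟨ε, hε, k₀, h2⟩ := h1 J
  obtain ⟨k₁, h3⟩ := hl ε hε
  set K := max (max k₀ k₁) (2 * J + 1) with hK
  refine ⟨(J + 1) * (K + 1) ^ J + 4 * (4 * J * (J + 1)) ^ 2 + J + 2, fun Y hJ hm => ?_⟩
  by_contra hlt
  push Not at hlt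
  have hk : K ≤ Y.k := by
    by_contra hk
    have a1 := Y.m_le J hJ
    have a2 : (Y.k + 1) ^ J ≤ (K + 1) ^ J := Nat.pow_le_pow_left (by omega) _
    have a3 := Nat.mul_le_mul_left (J + 1) a2
    omega
  have hlow := Y.low_small J hJ (by omega) hlt
  rcases h3 Y hJ (by omega) (by omega) hlow with h | ⟨j, j2, jJ, b1, b2, b3⟩
  · have a1 : Y.k * Y.low.card ≤ Y.k * (4 * J * (J + 1)) := by
      have := Nat.mul_le_mul_left (4 * J) h
      nlinarith
    have a2 := Nat.le_of_mul_le_mul_left a1 (by omega)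
    have := Y.one_level _ a2 (by omega)
    omega
  · have := h2 j j2 jJ Y hJ (by omega) b1 b2 b3
    omega

end Pool.Agent.Lib.MP_299528_co.Bd
end
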